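import Mathlib
import Pool.Agent.H967G.Defs

/-! Task A1 (helper152): determinants and adjugates. -/

open Polynomial Matrix

namespace Girth967

variable {K : Type*} [Field K]

theorem A1_ne (σ : K →+* K) {u : K} (hu : u ≠ 0) : σ u ≠ 0 := (map_ne_zero σ).2 hu

/-- A1 -/
theorem Gm_det (σ : K →+* K) (hσ : ∀ x, σ (σ (σ x)) = x) (u : K) (hu : u ≠ 0) :
    (Gm σ u).det = 1 - X := by
  have h1 := A1_ne σ hu
  have h2 := A1_ne σ h1
  rw [Matrix.det_fin_three]
  simp only [Gm, Matrix.of_apply, Matrix.cons_val', Matrix.cons_val_zero, Matrix.cons_val_one,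
    Matrix.cons_val, Matrix.cons_val_fin_one]
  have e1 : C (σ u / σ (σ u)) * C (σ (σ u) / u) * C (u / σ u) = (1 : K[X]) := by
    rw [← C_mul, ← C_mul, ← C_1]
    congr 1
    field_simp
  have e2 : C (u / σ (σ u)) * C (σ u / u) * C (σ (σ u) / σ u) = (1 : K[X]) := by
    rw [← C_mul, ← C_mul, ← C_1]
    congr 1
    field_simp
  linear_combination e1 - X * e2

/-- A3 -/
theorem Shape_Gm (σ : K →+* K) (hσ : ∀ x, σ (σ (σ x)) = x) (u : K) : Shape σ (Gm σ u) := by
  unfold Shape Zm Gm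
  ext i j : 2
  fin_cases i <;> fin_cases j <;>
    simp [Matrix.mul_apply, Fin.sum_univ_three, hσ, map_div₀] <;> ring

theorem A1_Em_det (σ : K →+* K) (hσ : ∀ x, σ (σ (σ x)) = x) (u w : K) (hu : u ≠ 0) (hw : w ≠ 0) :
    (Em σ u w).det = (1 - X) ^ 3 := by
  unfold Em
  rw [Matrix.det_mul, Matrix.det_adjugate, Gm_det σ hσ u hu, Gm_det σ hσ w hw, Fintype.card_fin]
  ring

theorem A1_Em_adj (σ : K →+* K) (hσ : ∀ x, σ (σ (σ x)) = x) (u w : K) (hu : u ≠ 0) :
    (Em σ u w).adjugate = (1 - X : K[X]) • Em σ w u := by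
  unfold Em
  rw [Matrix.adjugate_mul_distrib, Matrix.adjugate_adjugate _ (by simp), Gm_det σ hσ u hu,
    Fintype.card_fin, Matrix.mul_smul]
  norm_num

/-- A7 -/
theorem Fm_det (σ : K →+* K) (hσ : ∀ x, σ (σ (σ x)) = x) (u w : ℕ → K) (m : ℕ)
    (hu : ∀ i < m, Iso σ (u i)) (hw : ∀ i < m, Iso σ (w i)) :
    (Fm σ u w m).det = ((1 - X) ^ m) ^ 3 := by
  induction m with
  | zero => simp [Fm]
  | succ m ih =>
    rw [Fm, Matrix.det_mul, ih (fun i hi => hu i (by omega)) (fun i hi => hw i (by omega)),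
      A1_Em_det σ hσ _ _ (hu m (by omega)).1 (hw m (by omega)).1]
    ring

theorem Fm_adj (σ : K →+* K) (hσ : ∀ x, σ (σ (σ x)) = x) (u w : ℕ → K) (m : ℕ)
    (hu : ∀ i < m, Iso σ (u i)) (hw : ∀ i < m, Iso σ (w i)) :
    (Fm σ u w m).adjugate = ((1 - X : K[X]) ^ m) • Fm' σ u w m := by
  induction m with
  | zero => simp [Fm, Fm']
  | succ m ih =>
    rw [Fm, Fm', Matrix.adjugate_mul_distrib,
      ih (fun i hi => hu i (by omega)) (fun i hi => hw i (by omega)),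
      A1_Em_adj σ hσ _ _ (hu m (by omega)).1, Matrix.smul_mul, Matrix.mul_smul, smul_smul,
      pow_succ, mul_comm]

end Girth967
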