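import Mathlib
import Pool.Agent.H967G.Defs

open Polynomial Matrix

namespace Girth967

variable {K : Type*} [Field K]

theorem A10_reverse_pow (Q : K[X]) (N : ℕ) : (Q ^ N).reverse = Q.reverse ^ N := by
  induction N with
  | zero =>
    rw [pow_zero, pow_zero, ← C_1, reverse_C]
  | succ N ih => rw [pow_succ, reverse_mul_of_domain, ih, pow_succ]

theorem A10_reverse_eval (Q : K[X]) : Q.reverse.eval 1 = Q.eval 1 := by
  haveI : Invertible (1 : K) := invertibleOne
  have h := eval₂_reverse_mul_pow (RingHom.id K) (1 : K) Q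
  have h1 : (⅟(1 : K)) = 1 := invOf_one
  rw [h1] at h
  simpa [eval₂_id] using h

theorem A10_coprime (P : K[X]) (h : P.eval 1 ≠ 0) : IsCoprime (X - C 1) P := by
  exact ((irreducible_X_sub_C (1 : K)).coprime_iff_not_dvd).2 (fun h1 => h (dvd_iff_isRoot.1 h1))

/-- A10 : palindromic divisibility -/
theorem palindrome_dvd (T Q : K[X]) (m N : ℕ) (ε : K[X]) (hε : ε = 1 ∨ ε = -1) (hT : T ≠ 0)
    (hdeg : T.natDegree ≤ m) (hrefl : T = ε * T.reflect m)
    (hQ0 : Q.coeff 0 ≠ 0) (hQX : IsCoprime Q (1 - X)) (hQr : IsCoprime Q Q.reverse)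
    (hdvd : Q ^ N ∣ T) : 2 * N * Q.natDegree ≤ m ∧ (T.eval 1 = 0 → 2 * N * Q.natDegree + 1 ≤ m) := by
  obtain ⟨S, hS⟩ := hdvd
  have hQN : Q ≠ 0 := by
    intro h
    rw [h] at hQ0
    simp at hQ0
  have hS0 : S ≠ 0 := by
    intro h
    apply hT
    rw [hS, h, mul_zero]
  have hdegT : T.natDegree = (Q ^ N).natDegree + S.natDegree := by
    rw [hS, natDegree_mul (pow_ne_zero _ hQN) hS0]
  have hrev : Q.reverse ^ N ∣ T := by
    have h1 : m = (Q ^ N).natDegree + (m - (Q ^ N).natDegree) := by omega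
    have h2 : T.reflect m = (Q ^ N).reverse * S.reflect (m - (Q ^ N).natDegree) := by
      rw [hS]
      conv_lhs => rw [h1]
      rw [reflect_mul (Q ^ N) S (le_refl _) (by omega)]
      rfl
    rw [hrefl, h2, A10_reverse_pow]
    exact Dvd.dvd.mul_left (dvd_mul_right _ _) _
  have hmul : Q ^ N * Q.reverse ^ N ∣ T := (hQr.pow (m := N) (n := N)).mul_dvd ⟨S, hS⟩ hrev
  have hrevdeg : Q.reverse.natDegree = Q.natDegree := by
    rw [reverse_natDegree]
    have : Q.natTrailingDegree = 0 := natTrailingDegree_eq_zero_of_constantCoeff_ne_zero hQ0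
    rw [this, Nat.sub_zero]
  have hrev0 : Q.reverse ≠ 0 := by
    intro h
    exact hQN (reverse_eq_zero.1 h)
  have hdegmul : (Q ^ N * Q.reverse ^ N).natDegree = 2 * N * Q.natDegree := by
    rw [natDegree_mul (pow_ne_zero _ hQN) (pow_ne_zero _ hrev0), natDegree_pow, natDegree_pow,
      hrevdeg]
    ring
  refine ⟨?_, fun h1 => ?_⟩
  · rw [← hdegmul]
    exact (natDegree_le_of_dvd hmul hT).trans hdeg
  · have hQ1 : Q.eval 1 ≠ 0 := by
      obtain ⟨a, b, hab⟩ := hQX
      intro h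
      have := congrArg (eval 1) hab
      simp [h] at this
    have hR1 : Q.reverse.eval 1 ≠ 0 := by
      rw [A10_reverse_eval]
      exact hQ1
    have hc : IsCoprime (X - C 1) (Q ^ N * Q.reverse ^ N) :=
      IsCoprime.mul_right ((A10_coprime Q hQ1).pow_right) ((A10_coprime _ hR1).pow_right)
    have hd : (X - C 1) ∣ T := dvd_iff_isRoot.2 h1
    have h3 : (X - C 1) * (Q ^ N * Q.reverse ^ N) ∣ T := hc.mul_dvd hd hmul
    have h4 := (natDegree_le_of_dvd h3 hT).trans hdeg
    rw [natDegree_mul (X_sub_C_ne_zero 1) (mul_ne_zero (pow_ne_zero _ hQN) (pow_ne_zero _ hrev0)),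
      hdegmul, natDegree_X_sub_C] at h4
    omega

end Girth967
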