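import Mathlib
import Pool.Agent.H967G.Defs

/-! Task A2 of helper967 (girth): the closed form of `E_uw` (helper715). -/

open Polynomial Matrix

namespace Girth967

variable {K : Type*} [Field K]

theorem A2_aux (a b c d e f k : K) (ha : a ≠ 0) (hb : b ≠ 0) (hc : c ≠ 0)
    (hd : d ≠ 0) (he : e ≠ 0) (hf : f ≠ 0)
    (h1 : a ^ 2 + b ^ 2 + c ^ 2 = 0) (h2 : d ^ 2 + e ^ 2 + f ^ 2 = 0)
    (hk : k = -(b ^ 2 * f ^ 2 - c ^ 2 * e ^ 2) / (a * b * c * (d * e * f))) :
    (!![C (b / c), -C (a / c), 0;
        0, C (c / a), -C (b / a);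
        -C (c / b) * X, 0, C (a / b)] : Matrix (Fin 3) (Fin 3) K[X]).adjugate *
      !![C (e / f), -C (d / f), 0;
        0, C (f / d), -C (e / d);
        -C (f / e) * X, 0, C (d / e)] = !![
      C (c * e / (b * f)) - C (b * f / (c * e)) * X,
      C (k * a * e), C (k * a * f);
      C (k * b * d) * X,
      C (a * f / (c * d)) - C (c * d / (a * f)) * X,
      C (k * b * f);
      C (k * c * d) * X, C (k * c * e) * X,
      C (b * d / (a * e)) - C (a * e / (b * d)) * X] := by
  have e01 : -(c / a * (a / b) * (d / f)) + a / c * (a / b) * (f / d) = k * a * e := by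
    rw [hk]; field_simp
    linear_combination (f^2) * h1 - c^2 * h2
  have e02 : -(a / c * (a / b) * (e / d)) + a / c * (b / a) * (d / e) = k * a * f := by
    rw [hk]; field_simp
    linear_combination -(e^2) * h1 + b^2 * h2
  have e10 : b / a * (c / b) * (e / f) + -(b / c * (b / a) * (f / e)) = k * b * d := by
    rw [hk]; field_simp
    ring
  have e12 : -(b / c * (a / b) * (e / d)) + b / c * (b / a) * (d / e) = k * b * f := by
    rw [hk]; field_simp
    linear_combination -(e^2) * h1 + b^2 * h2
  have e20 : c / a * (c / b) * (e / f) + -(b / c * (c / a) * (f / e)) = k * c * d := by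
    rw [hk]; field_simp
    ring
  have e21 : -(c / a * (c / b) * (d / f)) + a / c * (c / b) * (f / d) = k * c * e := by
    rw [hk]; field_simp
    linear_combination (f^2) * h1 - c^2 * h2
  have d0 : c / a * (a / b) * (e / f) = c * e / (b * f) := by field_simp
  have d0' : a / c * (b / a) * (f / e) = b * f / (c * e) := by field_simp
  have d1 : b / c * (a / b) * (f / d) = a * f / (c * d) := by field_simp
  have d1' : b / a * (c / b) * (d / f) = c * d / (a * f) := by field_simp
  have d2 : b / c * (c / a) * (d / e) = b * d / (a * e) := by field_simp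
  have d2' : a / c * (c / b) * (e / d) = a * e / (b * d) := by field_simp
  have L : ∀ {x y : K}, x = y → C x = C y := fun h => by rw [h]
  have E01 := L e01
  have E02 := L e02
  have E10 := L e10
  have E12 := L e12
  have E20 := L e20
  have E21 := L e21
  have D0 := L d0
  have D0' := L d0'
  have D1 := L d1
  have D1' := L d1'
  have D2 := L d2
  have D2' := L d2'
  simp only [map_add, map_mul, map_neg] at E01 E02 E10 E12 E20 E21
  rw [map_mul, map_mul] at D0 D0' D1 D1' D2 D2'
  rw [Matrix.adjugate_fin_three_of]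
  refine Matrix.ext fun i j => ?_
  fin_cases i <;> fin_cases j <;>
    simp only [Matrix.mul_apply, Fin.sum_univ_three, Fin.zero_eta, Fin.mk_one, Fin.reduceFinMk,
      Fin.isValue, Matrix.of_apply, Matrix.cons_val', Matrix.cons_val_zero, Matrix.cons_val_one,
      Matrix.cons_val, Matrix.cons_val_fin_one, map_mul]
  · linear_combination D0 - X * D0'
  · linear_combination E01
  · linear_combination E02
  · linear_combination X * E10
  · linear_combination D1 - X * D1'
  · linear_combination E12
  · linear_combination X * E20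
  · linear_combination X * E21
  · linear_combination D2 - X * D2'

/-- A2 closed form of E -/
theorem Em_eq (σ : K →+* K) (hσ : ∀ x, σ (σ (σ x)) = x) (u w : K) (hu : Iso σ u) (hw : Iso σ w) :
    Em σ u w = !![
      C (σ (σ u) * σ w / (σ u * σ (σ w))) - C (σ u * σ (σ w) / (σ (σ u) * σ w)) * X,
      C (kap σ u w * u * σ w), C (kap σ u w * u * σ (σ w));
      C (kap σ u w * σ u * w) * X,
      C (u * σ (σ w) / (σ (σ u) * w)) - C (σ (σ u) * w / (u * σ (σ w))) * X,
      C (kap σ u w * σ u * σ (σ w));
      C (kap σ u w * σ (σ u) * w) * X, C (kap σ u w * σ (σ u) * σ w) * X,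
      C (σ u * w / (u * σ w)) - C (u * σ w / (σ u * w)) * X] := by
  have n1 : ∀ x : K, x ≠ 0 → σ x ≠ 0 := fun x hx => (map_ne_zero σ).mpr hx
  exact A2_aux u (σ u) (σ (σ u)) w (σ w) (σ (σ w)) (kap σ u w) hu.1 (n1 _ hu.1) (n1 _ (n1 _ hu.1))
    hw.1 (n1 _ hw.1) (n1 _ (n1 _ hw.1)) hu.2 hw.2 rfl

end Girth967
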