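import Mathlib
import Pool.Agent.H967G.Defs

open Polynomial Matrix

namespace Girth967

variable {K : Type*} [Field K]

theorem A4_shape (σ : K →+* K) {M : Matrix (Fin 3) (Fin 3) K[X]} (hM : Shape σ M) :
    M = shp σ (M 0) := by
  unfold Shape at hM
  have h := fun i j => congrFun (congrFun hM i) j
  have h00 := h 0 0
  have h01 := h 0 1
  have h02 := h 0 2
  have h10 := h 1 0
  have h11 := h 1 1
  have h12 := h 1 2
  simp only [Zm, Matrix.mul_apply, Fin.sum_univ_three, Matrix.map_apply, Matrix.of_apply,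
    Matrix.cons_val', Matrix.cons_val_zero, Matrix.cons_val_one, Matrix.cons_val,
    Matrix.cons_val_fin_one, zero_mul, mul_zero, one_mul, mul_one, add_zero, zero_add] at h00 h01 h02 h10 h11 h12
  apply Matrix.ext
  intro i j
  fin_cases i <;> fin_cases j
  · rfl
  · rfl
  · rfl
  · show M 1 0 = X * (M 0 2).map σ
    rw [h00]
    ring
  · show M 1 1 = (M 0 0).map σ
    rw [h01]
  · show M 1 2 = (M 0 1).map σ
    rw [h02]
  · show M 2 0 = X * ((M 0 1).map σ).map σ
    rw [h10, h02]
    ring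
  · show M 2 1 = X * ((M 0 2).map σ).map σ
    rw [h11, h00, Polynomial.map_mul, Polynomial.map_X]
    ring
  · show M 2 2 = ((M 0 0).map σ).map σ
    rw [h12, h01]

theorem A4_eval (σ : K →+* K) (a : Fin 3 → K[X]) :
    (shp σ a).det.coeff 0 = (a 0).coeff 0 * σ ((a 0).coeff 0) * σ (σ ((a 0).coeff 0)) := by
  rw [Matrix.det_fin_three]
  simp only [shp, Matrix.of_apply, Matrix.cons_val', Matrix.cons_val_zero, Matrix.cons_val_one,
    Matrix.cons_val, Matrix.cons_val_fin_one]
  simp only [Polynomial.coeff_add, Polynomial.coeff_sub, Polynomial.mul_coeff_zero,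
    Polynomial.coeff_X_zero, Polynomial.coeff_map, zero_mul, mul_zero, add_zero, sub_zero]

theorem A4_shift (σ : K →+* K) (c0 c1 c2 : K[X]) :
    (shp σ ![X * c2, c0, c1]).det = (shp σ ![c0, c1, c2]).det * X := by
  have h : shp σ ![X * c2, c0, c1] = shp σ ![c0, c1, c2] * Zm K := by
    ext i j : 2
    fin_cases i <;> fin_cases j <;>
      simp [shp, Zm, Matrix.mul_apply, Fin.sum_univ_three, mul_comm, mul_left_comm]
  rw [h, Matrix.det_mul, Zm_det]

theorem A4_step (σ : K →+* K) (a0 a1 a2 : K[X]) (h : (shp σ ![a0, a1, a2]).det = 0) :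
    ∃ b, a0 = X * b ∧ (shp σ ![a1, a2, b]).det = 0 := by
  have h1 := A4_eval σ ![a0, a1, a2]
  rw [h] at h1
  simp only [Polynomial.coeff_zero, Matrix.cons_val_zero] at h1
  have h2 : a0.coeff 0 = 0 := by
    rcases mul_eq_zero.1 h1.symm with h3 | h3
    · rcases mul_eq_zero.1 h3 with h4 | h4
      · exact h4
      · exact (map_eq_zero σ).1 h4
    · exact (map_eq_zero σ).1 ((map_eq_zero σ).1 h3)
  obtain ⟨b, hb⟩ := Polynomial.X_dvd_iff.2 h2
  refine ⟨b, hb, ?_⟩
  rw [hb, A4_shift] at h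
  exact (mul_eq_zero.1 h).resolve_right X_ne_zero

theorem A4_main (σ : K →+* K) (n : ℕ) : ∀ a0 a1 a2 : K[X],
    a0.natDegree + a1.natDegree + a2.natDegree < n → (shp σ ![a0, a1, a2]).det = 0 →
    a0 = 0 ∧ a1 = 0 ∧ a2 = 0 := by
  induction n with
  | zero => intro a0 a1 a2 h; omega
  | succ n ih =>
    intro a0 a1 a2 hn h
    obtain ⟨b0, hb0, h0⟩ := A4_step σ a0 a1 a2 h
    obtain ⟨b1, hb1, h1⟩ := A4_step σ a1 a2 b0 h0
    obtain ⟨b2, hb2, h2⟩ := A4_step σ a2 b0 b1 h1
    have hdeg : ∀ b : K[X], b ≠ 0 → (X * b).natDegree = b.natDegree + 1 := by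
      intro b hb
      rw [natDegree_X_mul hb]
    have hle : ∀ b : K[X], b.natDegree ≤ (X * b).natDegree := by
      intro b
      by_cases hb : b = 0
      · rw [hb]
        simp
      · rw [hdeg b hb]
        omega
    by_cases hall : b0 = 0 ∧ b1 = 0 ∧ b2 = 0
    · rw [hb0, hb1, hb2, hall.1, hall.2.1, hall.2.2]
      simp
    · exfalso
      have hlt : b0.natDegree + b1.natDegree + b2.natDegree <
          a0.natDegree + a1.natDegree + a2.natDegree := by
        rw [hb0, hb1, hb2]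
        have e0 := hle b0
        have e1 := hle b1
        have e2 := hle b2
        by_cases g0 : b0 = 0
        · by_cases g1 : b1 = 0
          · have g2 : b2 ≠ 0 := fun g2 => hall ⟨g0, g1, g2⟩
            have := hdeg b2 g2
            omega
          · have := hdeg b1 g1
            omega
        · have := hdeg b0 g0
          omega
      exact hall (ih b0 b1 b2 (by omega) h2)

/-- A4 -/
theorem Shape_det_ne_zero (σ : K →+* K) (hσ : ∀ x, σ (σ (σ x)) = x)
    {M : Matrix (Fin 3) (Fin 3) K[X]} (hM : Shape σ M) (h0 : M ≠ 0) : M.det ≠ 0 := by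
  intro hdet
  apply h0
  have h1 := A4_shape σ hM
  have h2 : M 0 = ![M 0 0, M 0 1, M 0 2] := by
    ext j : 1
    fin_cases j <;> rfl
  rw [h1, h2] at hdet
  obtain ⟨e0, e1, e2⟩ := A4_main σ _ (M 0 0) (M 0 1) (M 0 2) (Nat.lt_succ_self _) hdet
  rw [h1, h2, e0, e1, e2]
  ext i j : 2
  fin_cases i <;> fin_cases j <;> simp [shp]

end Girth967
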