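import Mathlib
import Pool.Agent.H967G.Defs

open Polynomial Matrix

namespace Girth967

set_option linter.unusedVariables false

variable {K : Type*} [Field K]

/-- A5 -/
theorem dot_ne_zero (σ : K →+* K) (hσ : ∀ x, σ (σ (σ x)) = x) (u w : K) (hu : Iso σ u)
    (hw : Iso σ w) (hd : dl σ u w ≠ 0) : vec σ u ⬝ᵥ vec σ w ≠ 0 := by
  intro h
  apply hd
  have h1 : u * w + σ u * σ w + σ (σ u) * σ (σ w) = 0 := by
    have h2 := h
    simp only [vec, dotProduct, Fin.sum_univ_three] at h2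
    simpa using h2
  have hu2 := hu.2
  have hw2 := hw.2
  have h3 : (σ u * σ (σ w) - σ (σ u) * σ w) ^ 2 = 0 := by
    linear_combination ((σ w) ^ 2 + (σ (σ w)) ^ 2) * hu2 - u ^ 2 * hw2 +
      (u * w - σ u * σ w - σ (σ u) * σ (σ w)) * h1
  have h4 : σ u * σ (σ w) - σ (σ u) * σ w = 0 := by
    exact pow_eq_zero_iff (two_ne_zero) |>.1 h3
  unfold dl
  linear_combination (σ u * σ (σ w) + σ (σ u) * σ w) * h4

end Girth967
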