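import Mathlib
import Pool.Agent.H967G.Defs

set_option autoImplicit false

namespace Girth967

/-- characteristic polynomial of a `3 × 3` matrix, in terms of the adjugate -/
theorem A6_aux {R : Type*} [CommRing R] (F : Matrix (Fin 3) (Fin 3) R) (Δ : R) :
    (F - Δ • (1 : Matrix (Fin 3) (Fin 3) R)).det =
      F.det - Δ * F.adjugate.trace + Δ ^ 2 * F.trace - Δ ^ 3 := by
  rw [Matrix.adjugate_fin_three]
  simp only [Matrix.det_fin_three, Matrix.trace_fin_three, Matrix.sub_apply, Matrix.smul_apply,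
    Matrix.one_apply, smul_eq_mul]
  simp
  ring

/-- A6 : det (F - Δ) = Δ²(tr F - tr F') when adj F = Δ F', det F = Δ³ -/
theorem det_sub_scalar {R : Type*} [CommRing R] (F F' : Matrix (Fin 3) (Fin 3) R) (Δ : R)
    (hd : F.det = Δ ^ 3) (ha : F.adjugate = Δ • F') :
    (F - Δ • (1 : Matrix (Fin 3) (Fin 3) R)).det = Δ ^ 2 * (F.trace - F'.trace) := by
  rw [A6_aux, hd, ha, Matrix.trace_smul, smul_eq_mul]
  ring

end Girth967
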