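import Mathlib
import Pool.Agent.H967G.Defs

/-! A8 : the value at `X = 1` of the product `Fm` is nonzero (helper332). -/

open Polynomial Matrix

namespace Girth967

variable {K : Type*} [Field K]

/-- the closed form of `Em` (statement of task A2), as a hypothesis -/
def A8_EmEq (σ : K →+* K) : Prop := ∀ u w : K, Iso σ u → Iso σ w →
    Em σ u w = !![
      C (σ (σ u) * σ w / (σ u * σ (σ w))) - C (σ u * σ (σ w) / (σ (σ u) * σ w)) * X,
      C (kap σ u w * u * σ w), C (kap σ u w * u * σ (σ w));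
      C (kap σ u w * σ u * w) * X,
      C (u * σ (σ w) / (σ (σ u) * w)) - C (σ (σ u) * w / (u * σ (σ w))) * X,
      C (kap σ u w * σ u * σ (σ w));
      C (kap σ u w * σ (σ u) * w) * X, C (kap σ u w * σ (σ u) * σ w) * X,
      C (σ u * w / (u * σ w)) - C (u * σ w / (σ u * w)) * X]

theorem A8_eval_Em (σ : K →+* K) (hE : A8_EmEq σ) (u w : K) (hu : Iso σ u) (hw : Iso σ w) :
    (Em σ u w).map (Polynomial.eval 1) = kap σ u w • vecMulVec (vec σ u) (vec σ w) := by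
  have hu0 : u ≠ 0 := hu.1
  have hw0 : w ≠ 0 := hw.1
  have hu1 : σ u ≠ 0 := (map_ne_zero σ).2 hu0
  have hw1 : σ w ≠ 0 := (map_ne_zero σ).2 hw0
  have hu2 : σ (σ u) ≠ 0 := (map_ne_zero σ).2 hu1
  have hw2 : σ (σ w) ≠ 0 := (map_ne_zero σ).2 hw1
  have e1 := hu.2
  have e2 := hw.2
  rw [hE u w hu hw]
  ext i j
  fin_cases i <;> fin_cases j <;>
    simp [vecMulVec, vec, Matrix.map_apply, kap, dl, nrm] <;>
    set a := u <;> set b := σ u <;> set c := σ (σ u) <;>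
    set d := w <;> set e := σ w <;> set f := σ (σ w)
  all_goals field_simp
  · linear_combination f ^ 2 * e1 - c ^ 2 * e2
  · linear_combination b ^ 2 * e2 - e ^ 2 * e1

theorem A8_kap_ne (σ : K →+* K) (u w : K) (hu : Iso σ u) (hw : Iso σ w) (hd : dl σ u w ≠ 0) :
    kap σ u w ≠ 0 := by
  have hu1 : σ u ≠ 0 := (map_ne_zero σ).2 hu.1
  have hw1 : σ w ≠ 0 := (map_ne_zero σ).2 hw.1
  have hu2 : σ (σ u) ≠ 0 := (map_ne_zero σ).2 hu1
  have hw2 : σ (σ w) ≠ 0 := (map_ne_zero σ).2 hw1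
  unfold kap nrm
  refine div_ne_zero (neg_ne_zero.2 hd) (mul_ne_zero ?_ ?_)
  · exact mul_ne_zero (mul_ne_zero hu.1 hu1) hu2
  · exact mul_ne_zero (mul_ne_zero hw.1 hw1) hw2

theorem A8_map_mul (M N : Matrix (Fin 3) (Fin 3) K[X]) :
    (M * N).map (Polynomial.eval 1) = M.map (Polynomial.eval 1) * N.map (Polynomial.eval 1) :=
  Matrix.map_mul (f := Polynomial.evalRingHom (1 : K)) (L := M) (M := N)

theorem A8_ind (σ : K →+* K) (hE : A8_EmEq σ)
    (hdot : ∀ u w : K, Iso σ u → Iso σ w → dl σ u w ≠ 0 → vec σ u ⬝ᵥ vec σ w ≠ 0)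
    (u w : ℕ → K) (m : ℕ)
    (hu : ∀ i < m + 1, Iso σ (u i)) (hw : ∀ i < m + 1, Iso σ (w i))
    (h1 : ∀ i < m + 1, dl σ (u i) (w i) ≠ 0)
    (h2 : ∀ i, i + 1 < m + 1 → dl σ (w i) (u (i + 1)) ≠ 0) :
    ∃ t : K, t ≠ 0 ∧ (Fm σ u w (m + 1)).map (Polynomial.eval 1)
      = t • vecMulVec (vec σ (u 0)) (vec σ (w m)) := by
  induction m with
  | zero =>
    refine ⟨kap σ (u 0) (w 0), A8_kap_ne σ _ _ (hu 0 (by omega)) (hw 0 (by omega))
      (h1 0 (by omega)), ?_⟩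
    rw [← A8_eval_Em σ hE (u 0) (w 0) (hu 0 (by omega)) (hw 0 (by omega))]
    simp [Fm]
  | succ m ih =>
    obtain ⟨t, ht, hF⟩ := ih (fun i hi => hu i (by omega)) (fun i hi => hw i (by omega))
      (fun i hi => h1 i (by omega)) (fun i hi => h2 i (by omega))
    refine ⟨t * kap σ (u (m + 1)) (w (m + 1)) * (vec σ (w m) ⬝ᵥ vec σ (u (m + 1))),
      mul_ne_zero (mul_ne_zero ht (A8_kap_ne σ _ _ (hu _ (by omega)) (hw _ (by omega))
        (h1 _ (by omega))))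
        (hdot _ _ (hw m (by omega)) (hu _ (by omega)) (h2 m (by omega))), ?_⟩
    have hstep : Fm σ u w (m + 1 + 1) = Fm σ u w (m + 1) * Em σ (u (m + 1)) (w (m + 1)) := rfl
    rw [hstep, A8_map_mul, hF, A8_eval_Em σ hE _ _ (hu _ (by omega)) (hw _ (by omega))]
    rw [Matrix.smul_mul, Matrix.mul_smul, Matrix.vecMulVec_mul_vecMulVec]
    ext i j
    simp [vecMulVec]
    ring

/-- A8 : value at X = 1 -/
theorem Fm_eval_one (σ : K →+* K) (_hσ : ∀ x, σ (σ (σ x)) = x)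
    (hE : A8_EmEq σ)
    (hdot : ∀ u w : K, Iso σ u → Iso σ w → dl σ u w ≠ 0 → vec σ u ⬝ᵥ vec σ w ≠ 0)
    (u w : ℕ → K) (m : ℕ) (hm : 0 < m)
    (hu : ∀ i < m, Iso σ (u i)) (hw : ∀ i < m, Iso σ (w i))
    (h1 : ∀ i < m, dl σ (u i) (w i) ≠ 0) (h2 : ∀ i, i + 1 < m → dl σ (w i) (u (i + 1)) ≠ 0) :
    (Fm σ u w m).map (Polynomial.eval 1) ≠ 0 := by
  obtain ⟨k, rfl⟩ : ∃ k, m = k + 1 := ⟨m - 1, by omega⟩
  obtain ⟨t, ht, hF⟩ := A8_ind σ hE hdot u w k hu hw h1 h2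
  rw [hF]
  intro h0
  have h00 := congrFun (congrFun h0 0) 0
  simp [vecMulVec, vec] at h00
  rcases h00 with h | h | h
  · exact ht h
  · exact (hu 0 (by omega)).1 h
  · exact (hw k (by omega)).1 h

end Girth967
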