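import Mathlib
import Pool.Agent.H967G.Defs

open Polynomial Matrix

namespace Girth967

variable {K : Type*} [Field K]

/-- the statement of task A2 (closed form of `E`) for a fixed `σ` -/
def A9_Em_eq (σ : K →+* K) : Prop := ∀ u w : K, Iso σ u → Iso σ w →
    Em σ u w = !![
      C (σ (σ u) * σ w / (σ u * σ (σ w))) - C (σ u * σ (σ w) / (σ (σ u) * σ w)) * X,
      C (kap σ u w * u * σ w), C (kap σ u w * u * σ (σ w));
      C (kap σ u w * σ u * w) * X,
      C (u * σ (σ w) / (σ (σ u) * w)) - C (σ (σ u) * w / (u * σ (σ w))) * X,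
      C (kap σ u w * σ u * σ (σ w));
      C (kap σ u w * σ (σ u) * w) * X, C (kap σ u w * σ (σ u) * σ w) * X,
      C (σ u * w / (u * σ w)) - C (u * σ w / (σ u * w)) * X]

theorem A9_deg0 (a : K) : (C a : K[X]).natDegree ≤ 1 := by
  rw [natDegree_C]; exact Nat.zero_le _

theorem A9_deg1 (a : K) : (C a * X : K[X]).natDegree ≤ 1 := by
  have h := natDegree_C_mul_X_pow_le a 1
  rwa [pow_one] at h

theorem A9_deg2 (a b : K) : (C a - C b * X : K[X]).natDegree ≤ 1 :=
  natDegree_sub_le_of_le (A9_deg0 a) (A9_deg1 b)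

theorem A9_refl0 (a : K) : (C a : K[X]).reflect 1 = C a * X := by
  rw [reflect_C, pow_one]

theorem A9_refl1 (a : K) : (C a * X : K[X]).reflect 1 = C a := by
  have h := reflect_C_mul_X_pow (R := K) 1 1 (c := a)
  rw [pow_one, revAt_le (le_refl 1), Nat.sub_self, pow_zero, mul_one] at h
  exact h

theorem A9_refl2 (a b : K) : (C a - C b * X : K[X]).reflect 1 = C a * X - C b := by
  rw [reflect_sub, A9_refl0, A9_refl1]

theorem A9_div (a b c e : K) : a * b / (c * e) = b * a / (e * c) := by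
  rw [mul_comm a b, mul_comm c e]

theorem A9_kap (σ : K →+* K) (u w : K) : kap σ w u = - kap σ u w := by
  unfold kap dl
  ring

theorem A9_Em_deg (σ : K →+* K) (hE : A9_Em_eq σ) (u w : K) (hu : Iso σ u) (hw : Iso σ w)
    (i j : Fin 3) : (Em σ u w i j).natDegree ≤ 1 := by
  rw [hE u w hu hw]
  fin_cases i <;> fin_cases j
  · exact A9_deg2 _ _
  · exact A9_deg0 _
  · exact A9_deg0 _
  · exact A9_deg1 _
  · exact A9_deg2 _ _
  · exact A9_deg0 _
  · exact A9_deg1 _
  · exact A9_deg1 _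
  · exact A9_deg2 _ _

theorem A9_Em_refl (σ : K →+* K) (hE : A9_Em_eq σ) (u w : K) (hu : Iso σ u) (hw : Iso σ w)
    (i j : Fin 3) : Em σ w u i j = -(Em σ u w j i).reflect 1 := by
  rw [hE u w hu hw, hE w u hw hu]
  have e1 : ∀ a b c e : K, C (kap σ w u * a * b) = -C (kap σ u w * b * a) ∧
      (c = e → C (kap σ w u * c) = -C (kap σ u w * e)) := by
    intro a b c e
    rw [A9_kap σ u w]
    refine ⟨?_, ?_⟩
    · rw [← C_neg]; congr 1; ring
    · rintro rfl
      rw [← C_neg]; congr 1; ring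
  fin_cases i <;> fin_cases j
  · show C (σ (σ w) * σ u / (σ w * σ (σ u))) - C (σ w * σ (σ u) / (σ (σ w) * σ u)) * X =
      -(C (σ (σ u) * σ w / (σ u * σ (σ w))) - C (σ u * σ (σ w) / (σ (σ u) * σ w)) * X).reflect 1
    rw [A9_refl2, neg_sub, A9_div (σ (σ w)), A9_div (σ w)]
  · show C (kap σ w u * w * σ u) = -(C (kap σ u w * σ u * w) * X).reflect 1
    rw [A9_refl1]; exact (e1 _ _ 0 0).1
  · show C (kap σ w u * w * σ (σ u)) = -(C (kap σ u w * σ (σ u) * w) * X).reflect 1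
    rw [A9_refl1]; exact (e1 _ _ 0 0).1
  · show C (kap σ w u * σ w * u) * X = -(C (kap σ u w * u * σ w)).reflect 1
    rw [A9_refl0, (e1 _ _ 0 0).1, neg_mul]
  · show C (w * σ (σ u) / (σ (σ w) * u)) - C (σ (σ w) * u / (w * σ (σ u))) * X =
      -(C (u * σ (σ w) / (σ (σ u) * w)) - C (σ (σ u) * w / (u * σ (σ w))) * X).reflect 1
    rw [A9_refl2, neg_sub, A9_div w, A9_div (σ (σ w))]
  · show C (kap σ w u * σ w * σ (σ u)) = -(C (kap σ u w * σ (σ u) * σ w) * X).reflect 1
    rw [A9_refl1]; exact (e1 _ _ 0 0).1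
  · show C (kap σ w u * σ (σ w) * u) * X = -(C (kap σ u w * u * σ (σ w))).reflect 1
    rw [A9_refl0, (e1 _ _ 0 0).1, neg_mul]
  · show C (kap σ w u * σ (σ w) * σ u) * X = -(C (kap σ u w * σ u * σ (σ w))).reflect 1
    rw [A9_refl0, (e1 _ _ 0 0).1, neg_mul]
  · show C (σ w * u / (w * σ u)) - C (w * σ u / (σ w * u)) * X =
      -(C (σ u * w / (u * σ w)) - C (u * σ w / (σ u * w)) * X).reflect 1
    rw [A9_refl2, neg_sub, A9_div (σ w), A9_div w]

/-- A9 : degrees -/
theorem Fm_natDegree (σ : K →+* K) (_hσ : ∀ x, σ (σ (σ x)) = x) (hE : A9_Em_eq σ) (u w : ℕ → K)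
    (m : ℕ) (hu : ∀ i < m, Iso σ (u i)) (hw : ∀ i < m, Iso σ (w i)) (i j : Fin 3) :
    (Fm σ u w m i j).natDegree ≤ m := by
  induction m generalizing i j with
  | zero =>
    show ((1 : Matrix (Fin 3) (Fin 3) K[X]) i j).natDegree ≤ 0
    rw [Matrix.one_apply]
    split_ifs <;> simp
  | succ m ih =>
    show ((Fm σ u w m * Em σ (u m) (w m)) i j).natDegree ≤ m + 1
    rw [Matrix.mul_apply]
    apply natDegree_sum_le_of_forall_le
    intro k _
    exact natDegree_mul_le_of_le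
      (ih (fun i hi => hu i (Nat.lt_succ_of_lt hi)) (fun i hi => hw i (Nat.lt_succ_of_lt hi)) i k)
      (A9_Em_deg σ hE _ _ (hu m (Nat.lt_succ_self m)) (hw m (Nat.lt_succ_self m)) k j)

theorem A9_reflect_sum (N : ℕ) (s : Finset (Fin 3)) (f : Fin 3 → K[X]) :
    (∑ k ∈ s, f k).reflect N = ∑ k ∈ s, (f k).reflect N := by
  classical
  induction s using Finset.induction_on with
  | empty => simp
  | insert a s ha ih => rw [Finset.sum_insert ha, Finset.sum_insert ha, reflect_add, ih]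

/-- A9 : reversal -/
theorem Fm'_reflect (σ : K →+* K) (hσ : ∀ x, σ (σ (σ x)) = x) (hE : A9_Em_eq σ) (u w : ℕ → K)
    (m : ℕ) (hu : ∀ i < m, Iso σ (u i)) (hw : ∀ i < m, Iso σ (w i)) (i j : Fin 3) :
    Fm' σ u w m i j = (-1) ^ m * (Fm σ u w m j i).reflect m := by
  induction m generalizing i j with
  | zero =>
    show (1 : Matrix (Fin 3) (Fin 3) K[X]) i j =
      (-1) ^ 0 * ((1 : Matrix (Fin 3) (Fin 3) K[X]) j i).reflect 0
    rw [Matrix.one_apply, Matrix.one_apply, pow_zero, one_mul]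
    by_cases h : i = j
    · rw [if_pos h, if_pos h.symm, ← C_1, reflect_C, pow_zero, mul_one]
    · rw [if_neg h, if_neg (fun h' => h h'.symm), reflect_zero]
  | succ m ih =>
    have hu' : ∀ i < m, Iso σ (u i) := fun i hi => hu i (Nat.lt_succ_of_lt hi)
    have hw' : ∀ i < m, Iso σ (w i) := fun i hi => hw i (Nat.lt_succ_of_lt hi)
    have hum := hu m (Nat.lt_succ_self m)
    have hwm := hw m (Nat.lt_succ_self m)
    show (Em σ (w m) (u m) * Fm' σ u w m) i j =
      (-1) ^ (m + 1) * ((Fm σ u w m * Em σ (u m) (w m)) j i).reflect (m + 1)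
    rw [Matrix.mul_apply, Matrix.mul_apply, A9_reflect_sum, Finset.mul_sum]
    apply Finset.sum_congr rfl
    intro k _
    rw [reflect_mul _ _ (Fm_natDegree σ hσ hE u w m hu' hw' j k)
      (A9_Em_deg σ hE _ _ hum hwm k i), ih hu' hw' k j, A9_Em_refl σ hE _ _ hum hwm i k]
    ring

end Girth967
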