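import Mathlib
import Pool.Agent.H967G.Defs

open Polynomial Matrix

namespace Girth967

variable {K : Type*} [Field K]

theorem B1_aux_fixed [Fintype K] [DecidableEq K] (q : ℕ) (hq : 2 ≤ q) :
    (Finset.univ.filter fun x : K => x ^ q = x).card ≤ q := by
  classical
  have hne : (X ^ q - X : K[X]) ≠ 0 := by
    exact FiniteField.X_pow_card_sub_X_ne_zero K (by omega)
  have hsub : (Finset.univ.filter fun x : K => x ^ q = x) ⊆ (X ^ q - X : K[X]).roots.toFinset := by
    intro x hx
    rw [Finset.mem_filter] at hx
    rw [Multiset.mem_toFinset, mem_roots hne]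
    simp [IsRoot, hx.2]
  refine (Finset.card_le_card hsub).trans ?_
  refine (Multiset.toFinset_card_le _).trans ?_
  refine (card_roots' _).trans ?_
  rw [FiniteField.X_pow_card_sub_X_natDegree_eq K (by omega)]

theorem B1_aux_ker [Fintype K] [DecidableEq K] (q : ℕ) (hq : 2 ≤ q) :
    (Finset.univ.filter fun x : K => x + x ^ q + x ^ (q ^ 2) = 0).card ≤ q ^ 2 := by
  classical
  have h1 : q < q ^ 2 := by nlinarith
  have hlow : (X + X ^ q : K[X]).degree < ((q ^ 2 : ℕ) : WithBot ℕ) := by
    refine (degree_add_le _ _).trans_lt ?_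
    rw [max_lt_iff]
    constructor
    · rw [degree_X]; exact_mod_cast (by omega : 1 < q ^ 2)
    · rw [degree_X_pow]; exact_mod_cast h1
  have hmon : (X ^ (q ^ 2) + (X + X ^ q) : K[X]).Monic := monic_X_pow_add (n := q ^ 2) hlow
  have hdeg : (X ^ (q ^ 2) + (X + X ^ q) : K[X]).natDegree = q ^ 2 := by
    have : (X ^ (q ^ 2) + (X + X ^ q) : K[X]).degree = ((q ^ 2 : ℕ) : WithBot ℕ) := by
      rw [degree_add_eq_left_of_degree_lt]
      · exact degree_X_pow _
      · rw [degree_X_pow]; exact hlow
    exact natDegree_eq_of_degree_eq_some this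
  have hsub : (Finset.univ.filter fun x : K => x + x ^ q + x ^ (q ^ 2) = 0) ⊆
      (X ^ (q ^ 2) + (X + X ^ q) : K[X]).roots.toFinset := by
    intro x hx
    rw [Finset.mem_filter] at hx
    rw [Multiset.mem_toFinset, mem_roots hmon.ne_zero]
    simp only [IsRoot, eval_add, eval_pow, eval_X]
    rw [add_comm]; exact hx.2
  refine (Finset.card_le_card hsub).trans ?_
  refine (Multiset.toFinset_card_le _).trans ?_
  refine (card_roots' _).trans ?_
  rw [hdeg]

/-- B1 -/
theorem card_fixed [Fintype K] [DecidableEq K] (q : ℕ) (hq : IsPrimePow q) (hK : Fintype.card K = q ^ 3)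
    (σ : K →+* K) (hσ : ∀ x, σ x = x ^ q) :
    (Finset.univ.filter fun x : K => σ x = x).card = q ∧
    (Finset.univ.filter fun x : K => x + σ x + σ (σ x) = 0).card = q ^ 2 := by
  classical
  have hq2 : 2 ≤ q := hq.two_le
  have hσ3 : ∀ x, σ (σ (σ x)) = x := by
    intro x
    rw [hσ, hσ, hσ, ← pow_mul, ← pow_mul]
    have := FiniteField.pow_card x
    rw [hK] at this
    calc x ^ (q * (q * q)) = x ^ (q ^ 3) := by congr 1; ring
      _ = x := this
  set F := (Finset.univ.filter fun x : K => σ x = x) with hF
  set N := (Finset.univ.filter fun x : K => x + σ x + σ (σ x) = 0) with hN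
  have hFle : F.card ≤ q := by
    have := B1_aux_fixed (K := K) q hq2
    simpa [hF, hσ] using this
  have hNle : N.card ≤ q ^ 2 := by
    have := B1_aux_ker (K := K) q hq2
    have e : N = (Finset.univ.filter fun x : K => x + x ^ q + x ^ (q ^ 2) = 0) := by
      ext x
      simp only [hN, Finset.mem_filter, Finset.mem_univ, true_and]
      rw [hσ (σ x), hσ x, ← pow_mul, ← pow_two]
    rw [e]; exact this
  have hcard : Fintype.card K ≤ N.card * F.card := by
    have h1 := Finset.card_le_mul_card_image (f := fun x : K => x + σ x + σ (σ x)) (Finset.univ : Finset K) N.card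
      (by
        intro a ha
        rw [Finset.mem_image] at ha
        obtain ⟨x0, _, hx0⟩ := ha
        refine Finset.card_le_card_of_injOn (fun x => x - x0) ?_ ?_
        · intro x hx
          simp only [Finset.coe_filter, Finset.mem_univ, true_and, Set.mem_ofPred_eq] at hx
          simp only [hN, Finset.coe_filter, Finset.mem_univ, true_and, Set.mem_ofPred_eq, map_sub]
          linear_combination hx - hx0
        · intro x _ y _ hxy
          simpa using hxy)
    have h2 : (Finset.univ.image (fun x : K => x + σ x + σ (σ x))) ⊆ F := by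
      intro y hy
      rw [Finset.mem_image] at hy
      obtain ⟨x, _, hx⟩ := hy
      simp only [hF, Finset.mem_filter, Finset.mem_univ, true_and]
      rw [← hx, map_add, map_add, hσ3]
      ring
    calc Fintype.card K = (Finset.univ : Finset K).card := rfl
      _ ≤ _ := h1
      _ ≤ _ := Nat.mul_le_mul_left _ (Finset.card_le_card h2)
  rw [hK] at hcard
  have hq0 : 0 < q := by omega
  constructor
  · apply le_antisymm hFle
    by_contra hlt
    push Not at hlt
    have h3 : N.card * F.card ≤ q ^ 2 * F.card := Nat.mul_le_mul_right _ hNle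
    have h4 : q ^ 2 * F.card < q ^ 2 * q := Nat.mul_lt_mul_of_pos_left hlt (by positivity)
    have h5 : q ^ 3 = q ^ 2 * q := by ring
    omega
  · apply le_antisymm hNle
    by_contra hlt
    push Not at hlt
    have h3 : N.card * F.card ≤ N.card * q := Nat.mul_le_mul_left _ hFle
    have h4 : N.card * q < q ^ 2 * q := Nat.mul_lt_mul_of_pos_right hlt hq0
    have h5 : q ^ 3 = q ^ 2 * q := by ring
    omega

end Girth967
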