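import Mathlib
import Pool.Agent.H967G.Defs

/-! Task B2: number of isotropic vectors. -/

namespace Girth967

variable {K : Type*} [Field K]

theorem B2_count [Fintype K] [DecidableEq K] (q : ℕ) (hK : Fintype.card K = q ^ 3)
    (σ : K →+* K) (hσ : ∀ x, σ x = x ^ q)
    (hc : ringChar K ≠ 2) :
    ∑ v ∈ (Finset.univ.filter fun x : K => x + σ x + σ (σ x) = 0).erase 0,
      quadraticChar K v = 0 := by
  classical
  obtain ⟨a, ha⟩ := FiniteField.exists_nonsquare hc
  have ha0 : a ≠ 0 := by
    rintro rfl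
    exact ha ⟨0, by simp⟩
  have hodd : Odd q := by
    have h1 := FiniteField.odd_card_of_char_ne_two hc
    rw [hK, ← Nat.odd_iff] at h1
    exact (Nat.odd_pow_iff (by norm_num)).1 h1
  have hσ3 : ∀ x, σ (σ (σ x)) = x := by
    intro x
    rw [hσ, hσ, hσ, ← pow_mul, ← pow_mul]
    have h2 := FiniteField.pow_card x
    rw [hK] at h2
    rw [show q * (q * q) = q ^ 3 by ring]
    exact h2
  obtain ⟨c, hcdef⟩ : ∃ c : K, c = a * σ a * σ (σ a) := ⟨_, rfl⟩
  have hc0 : c ≠ 0 := by
    rw [hcdef]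
    exact mul_ne_zero (mul_ne_zero ha0 ((map_ne_zero σ).2 ha0))
      ((map_ne_zero σ).2 ((map_ne_zero σ).2 ha0))
  have hσc : σ c = c := by
    rw [hcdef, map_mul, map_mul, hσ3]
    ring
  have hχa : quadraticChar K a = -1 := (quadraticChar_neg_one_iff_not_isSquare).2 ha
  have hχc : quadraticChar K c = -1 := by
    rw [hcdef, hσ (σ a), hσ a, map_mul, map_mul, map_pow, map_pow, map_pow, hχa,
      hodd.neg_one_pow, hodd.neg_one_pow]
    norm_num
  have h3 : ∑ v ∈ (Finset.univ.filter fun x : K => x + σ x + σ (σ x) = 0).erase 0,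
      quadraticChar K v =
      ∑ v ∈ (Finset.univ.filter fun x : K => x + σ x + σ (σ x) = 0).erase 0,
        quadraticChar K (c * v) := by
    symm
    apply Finset.sum_nbij' (fun v => c * v) (fun v => c⁻¹ * v)
    · intro v hv
      rw [Finset.mem_erase, Finset.mem_filter] at hv ⊢
      refine ⟨mul_ne_zero hc0 hv.1, Finset.mem_univ _, ?_⟩
      rw [map_mul, hσc, map_mul, hσc]
      rw [show c * v + c * σ v + c * σ (σ v) = c * (v + σ v + σ (σ v)) by ring, hv.2.2, mul_zero]
    · intro v hv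
      rw [Finset.mem_erase, Finset.mem_filter] at hv ⊢
      refine ⟨mul_ne_zero (inv_ne_zero hc0) hv.1, Finset.mem_univ _, ?_⟩
      rw [map_mul, map_inv₀, hσc, map_mul, map_inv₀, hσc]
      rw [show c⁻¹ * v + c⁻¹ * σ v + c⁻¹ * σ (σ v) = c⁻¹ * (v + σ v + σ (σ v)) by ring, hv.2.2,
        mul_zero]
    · intro v _
      rw [← mul_assoc, inv_mul_cancel₀ hc0, one_mul]
    · intro v _
      rw [← mul_assoc, mul_inv_cancel₀ hc0, one_mul]
    · intro v _
      rfl
  have h4 : ∑ v ∈ (Finset.univ.filter fun x : K => x + σ x + σ (σ x) = 0).erase 0,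
        quadraticChar K (c * v) =
      - ∑ v ∈ (Finset.univ.filter fun x : K => x + σ x + σ (σ x) = 0).erase 0,
        quadraticChar K v := by
    rw [← Finset.sum_neg_distrib]
    apply Finset.sum_congr rfl
    intro v _
    rw [map_mul, hχc]
    ring
  rw [h4] at h3
  omega

/-- B2 -/
theorem card_iso [Fintype K] [DecidableEq K] (q : ℕ) (hq : IsPrimePow q) (hK : Fintype.card K = q ^ 3)
    (σ : K →+* K) (hσ : ∀ x, σ x = x ^ q)
    (h : (Finset.univ.filter fun x : K => x + σ x + σ (σ x) = 0).card = q ^ 2) :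
    (Finset.univ.filter fun x : K => x ≠ 0 ∧ x ^ 2 + (σ x) ^ 2 + (σ (σ x)) ^ 2 = 0).card = q ^ 2 - 1 := by
  classical
  have h0 : (0 : K) ∈ (Finset.univ.filter fun x : K => x + σ x + σ (σ x) = 0) := by
    rw [Finset.mem_filter]
    refine ⟨Finset.mem_univ _, ?_⟩
    simp
  have he : ((Finset.univ.filter fun x : K => x + σ x + σ (σ x) = 0).erase 0).card = q ^ 2 - 1 := by
    rw [Finset.card_erase_of_mem h0, h]
  have hmem : ∀ x : K, (x ≠ 0 ∧ x ^ 2 + (σ x) ^ 2 + (σ (σ x)) ^ 2 = 0) ↔
      x ^ 2 ∈ (Finset.univ.filter fun x : K => x + σ x + σ (σ x) = 0).erase 0 := by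
    intro x
    rw [Finset.mem_erase, Finset.mem_filter, map_pow, map_pow]
    constructor
    · rintro ⟨h1, h2⟩
      exact ⟨pow_ne_zero 2 h1, Finset.mem_univ _, h2⟩
    · rintro ⟨h1, _, h2⟩
      refine ⟨?_, h2⟩
      rintro rfl
      exact h1 (by simp)
  by_cases hc : ringChar K = 2
  · -- characteristic two
    have hchar : CharP K 2 := by
      have := ringChar.charP K
      rw [hc] at this
      exact this
    have hinj : Function.Injective (fun x : K => x ^ 2) := by
      intro x y hxy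
      exact frobenius_inj K 2 (by simpa [frobenius_def] using hxy)
    have hbij : Function.Bijective (fun x : K => x ^ 2) := Finite.injective_iff_bijective.1 hinj
    rw [← he]
    apply Finset.card_bij (fun x _ => x ^ 2)
    · intro x hx
      rw [Finset.mem_filter] at hx
      exact (hmem x).1 hx.2
    · intro x _ y _ hxy
      exact hinj hxy
    · intro v hv
      obtain ⟨x, hx⟩ := hbij.2 v
      have hx' : x ^ 2 = v := hx
      refine ⟨x, ?_, hx'⟩
      rw [Finset.mem_filter]
      refine ⟨Finset.mem_univ _, (hmem x).2 ?_⟩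
      rw [hx']
      exact hv
  · have h1 : (Finset.univ.filter fun x : K => x ≠ 0 ∧ x ^ 2 + (σ x) ^ 2 + (σ (σ x)) ^ 2 = 0).card =
        ∑ v ∈ (Finset.univ.filter fun x : K => x + σ x + σ (σ x) = 0).erase 0,
          ((Finset.univ.filter fun x : K => x ≠ 0 ∧ x ^ 2 + (σ x) ^ 2 + (σ (σ x)) ^ 2 = 0).filter
            (fun x => x ^ 2 = v)).card := by
      apply Finset.card_eq_sum_card_fiberwise
      intro x hx
      have hx' := (Finset.mem_filter.1 (Finset.mem_coe.1 hx)).2
      exact Finset.mem_coe.2 ((hmem x).1 hx')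
    have h2 : ∀ v ∈ (Finset.univ.filter fun x : K => x + σ x + σ (σ x) = 0).erase 0,
        ((((Finset.univ.filter fun x : K => x ≠ 0 ∧ x ^ 2 + (σ x) ^ 2 + (σ (σ x)) ^ 2 = 0).filter
            (fun x => x ^ 2 = v)).card : ℕ) : ℤ) = quadraticChar K v + 1 := by
      intro v hv
      rw [← quadraticChar_card_sqrts hc v]
      congr 1
      apply congrArg
      ext x
      simp only [Finset.mem_filter, Finset.mem_univ, true_and, Set.mem_toFinset]
      constructor
      · rintro ⟨_, h3⟩
        exact h3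
      · intro h3
        have h3' : x ^ 2 = v := h3
        exact ⟨(hmem x).2 (by rw [h3']; exact hv), h3'⟩
    have h3 : (((Finset.univ.filter fun x : K => x ≠ 0 ∧ x ^ 2 + (σ x) ^ 2 + (σ (σ x)) ^ 2 = 0).card
        : ℕ) : ℤ) = ((q ^ 2 - 1 : ℕ) : ℤ) := by
      rw [h1, Nat.cast_sum, Finset.sum_congr rfl h2, Finset.sum_add_distrib,
        B2_count q hK σ hσ hc, zero_add, Finset.sum_const, he]
      simp
    exact_mod_cast h3

end Girth967
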