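import Mathlib
import Pool.Agent.H967G.Defs

/-! Tasks B3, B4 of `h967_tasks` (helper36). -/

open Polynomial Matrix

namespace Girth967

variable {K : Type*} [Field K]

/-- B3 -/
theorem dl_eq_zero_iff (σ : K →+* K) (hσ : ∀ x, σ (σ (σ x)) = x) (u w : K) (hu : u ≠ 0) (hw : w ≠ 0) :
    dl σ u w = 0 ↔ σ (u / w) = u / w := by
  have hinj : Function.Injective σ := σ.injective
  have hw1 : σ w ≠ 0 := (map_ne_zero σ).2 hw
  have hw2 : σ (σ w) ≠ 0 := (map_ne_zero σ).2 hw1
  constructor
  · intro h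
    unfold dl at h
    have h1 : (σ u * σ (σ w)) ^ 2 = (σ (σ u) * σ w) ^ 2 := by linear_combination h
    have h2 : σ (u / w) = σ (σ (u / w)) ∨ σ (u / w) = - σ (σ (u / w)) := by
      simp only [map_div₀]
      rcases sq_eq_sq_iff_eq_or_eq_neg.1 h1 with h3 | h3
      · left
        rw [div_eq_div_iff hw1 hw2]
        exact h3
      · right
        rw [← neg_div, div_eq_div_iff hw1 hw2]
        rw [h3]; ring
    set t := u / w
    rcases h2 with h2 | h2
    · have := congrArg (fun x => σ (σ x)) h2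
      simp only [hσ] at this
      exact this.symm
    · have h3 := congrArg (fun x => σ (σ x)) h2
      simp only [map_neg, hσ] at h3
      -- h3 : t = - σ t
      have h4 := congrArg σ h3
      rw [map_neg] at h4
      -- h4 : σ t = - σ (σ t)
      have h5 := congrArg σ h4
      rw [map_neg, hσ] at h5
      -- h5 : σ (σ t) = - t
      rw [h5, neg_neg] at h4
      exact h4
  · intro h
    have h1 : σ u = u / w * σ w := by
      rw [map_div₀, div_eq_iff hw1] at h
      exact h
    have h2 : σ (σ u) = u / w * σ (σ w) := by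
      rw [h1, map_mul, h]
    unfold dl
    rw [h2, h1]
    ring

/-- B4 -/
theorem exists_conn [Fintype K] [DecidableEq K] (q : ℕ) (hq : 2 ≤ q)
    (σ : K →+* K) (hσ : ∀ x, σ (σ (σ x)) = x)
    (h1 : (Finset.univ.filter fun x : K => σ x = x).card = q)
    (h2 : (Finset.univ.filter fun x : K => x ≠ 0 ∧ x ^ 2 + (σ x) ^ 2 + (σ (σ x)) ^ 2 = 0).card = q ^ 2 - 1)
    (h3 : ∀ u w : K, u ≠ 0 → w ≠ 0 → (dl σ u w = 0 ↔ σ (u / w) = u / w)) :
    ∃ S : Finset K, S.card = q + 1 ∧ (∀ u ∈ S, Iso σ u) ∧ ∀ u ∈ S, ∀ w ∈ S, u ≠ w → dl σ u w ≠ 0 := by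
  set J := Finset.univ.filter fun x : K => x ≠ 0 ∧ x ^ 2 + (σ x) ^ 2 + (σ (σ x)) ^ 2 = 0 with hJ
  have memJ : ∀ u : K, u ∈ J ↔ Iso σ u := fun u => by
    rw [hJ, Finset.mem_filter]
    simp [Iso]
  let f : K → K := fun u => σ u / u
  have hf : ∀ u w : K, u ≠ 0 → w ≠ 0 → (f u = f w ↔ σ (u / w) = u / w) := by
    intro u w hu hw
    have hw1 : σ w ≠ 0 := (map_ne_zero σ).2 hw
    show σ u / u = σ w / w ↔ _
    rw [map_div₀, div_eq_div_iff hu hw, div_eq_div_iff hw1 hw]
    constructor <;> intro h <;> linear_combination h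
  -- the nonzero fixed elements
  have hk : ((Finset.univ.filter fun x : K => σ x = x).erase 0).card = q - 1 := by
    rw [Finset.card_erase_of_mem (by simp), h1]
  have hfib : ∀ b ∈ J.image f, (J.filter fun u => f u = b).card = q - 1 := by
    intro b hb
    obtain ⟨u, hu, rfl⟩ := Finset.mem_image.1 hb
    have hu' := (memJ u).1 hu
    have hu0 : u ≠ 0 := hu'.1
    rw [← hk]
    have e : (J.filter fun w => f w = f u) =
        ((Finset.univ.filter fun x : K => σ x = x).erase 0).image (fun c => c * u) := by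
      ext w
      simp only [Finset.mem_filter, Finset.mem_image, Finset.mem_erase, Finset.mem_univ, true_and,
        memJ]
      constructor
      · rintro ⟨hw, hfw⟩
        refine ⟨w / u, ⟨div_ne_zero hw.1 hu0, ?_⟩, ?_⟩
        · exact (hf w u hw.1 hu0).1 hfw
        · field_simp
      · rintro ⟨c, ⟨hc0, hc⟩, rfl⟩
        have hcu : c * u ≠ 0 := mul_ne_zero hc0 hu0
        refine ⟨⟨hcu, ?_⟩, ?_⟩
        · rw [map_mul, hc, map_mul, hc]
          have := hu'.2
          linear_combination c ^ 2 * this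
        · rw [hf (c * u) u hcu hu0]
          have : c * u / u = c := by field_simp
          rw [this, hc]
    rw [e]
    refine Finset.card_image_of_injective _ fun a b hab => ?_
    exact mul_right_cancel₀ hu0 hab
  have hcard : J.card = (J.image f).card * (q - 1) := by
    rw [Finset.card_eq_sum_card_image f J, Finset.sum_congr rfl hfib, Finset.sum_const, smul_eq_mul]
  have hqq : (J.image f).card = q + 1 := by
    rw [h2] at hcard
    obtain ⟨r, rfl⟩ := Nat.exists_eq_add_of_le hq
    have e1 : (2 + r) ^ 2 - 1 = (r + 3) * (r + 1) := by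
      have : (2 + r) ^ 2 = (r + 3) * (r + 1) + 1 := by ring
      omega
    have e2 : 2 + r - 1 = r + 1 := by omega
    rw [e1, e2] at hcard
    have := Nat.eq_of_mul_eq_mul_right (by omega) hcard
    omega
  have hsec : ∀ b : K, ∃ u : K, b ∈ J.image f → u ∈ J ∧ f u = b := by
    intro b
    by_cases hb : b ∈ J.image f
    · obtain ⟨u, hu, e⟩ := Finset.mem_image.1 hb
      exact ⟨u, fun _ => ⟨hu, e⟩⟩
    · exact ⟨0, fun h => absurd h hb⟩
  choose g hg using hsec
  refine ⟨(J.image f).image g, ?_, ?_, ?_⟩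
  · rw [Finset.card_image_of_injOn, hqq]
    intro a ha b hb hab
    rw [← (hg a ha).2, ← (hg b hb).2, hab]
  · intro u hu
    obtain ⟨b, hb, rfl⟩ := Finset.mem_image.1 hu
    exact (memJ _).1 (hg b hb).1
  · intro u hu w hw huw hd
    obtain ⟨a, ha, rfl⟩ := Finset.mem_image.1 hu
    obtain ⟨b, hb, rfl⟩ := Finset.mem_image.1 hw
    have hua := (memJ _).1 (hg a ha).1
    have hwb := (memJ _).1 (hg b hb).1
    rw [h3 _ _ hua.1 hwb.1, ← hf _ _ hua.1 hwb.1, (hg a ha).2, (hg b hb).2] at hd
    exact huw (by rw [hd])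

end Girth967
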