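import Mathlib
import Pool.Agent.H967G.Defs

open Polynomial Matrix

namespace Girth967

variable {K : Type*} [Field K]

theorem C1_map3 (σ : K →+* K) (hσ : ∀ x, σ (σ (σ x)) = x) (p : K[X]) :
    ((p.map σ).map σ).map σ = p := by
  ext n
  simp [hσ]

theorem C1_aux (σ : K →+* K) (M : Matrix (Fin 3) (Fin 3) K[X]) :
    Shape σ M ↔
      (M 1 0 = X * (M 0 2).map σ ∧ M 1 1 = (M 0 0).map σ ∧ M 1 2 = (M 0 1).map σ) ∧
      (M 2 0 = X * (M 1 2).map σ ∧ M 2 1 = (M 1 0).map σ ∧ M 2 2 = (M 1 1).map σ) ∧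
      (X * M 0 0 = X * (M 2 2).map σ ∧ X * M 0 1 = (M 2 0).map σ ∧ X * M 0 2 = (M 2 1).map σ) := by
  unfold Shape
  rw [← Matrix.ext_iff]
  simp only [Fin.forall_fin_succ, Matrix.mul_apply, Fin.sum_univ_three, Zm]
  simp [mul_comm X]

/-- C1: the matrices of the right shape are determined by their first row -/
theorem Shape_iff (σ : K →+* K) (hσ : ∀ x, σ (σ (σ x)) = x) (M : Matrix (Fin 3) (Fin 3) K[X]) :
    Shape σ M ↔ M = shp σ (M 0) := by
  rw [C1_aux]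
  constructor
  · rintro ⟨⟨h1, h2, h3⟩, ⟨h4, h5, h6⟩, -⟩
    rw [← Matrix.ext_iff]
    simp only [Fin.forall_fin_succ, shp]
    simp [h1, h2, h3, h4, h5, h6]
  · intro h
    have e : ∀ i j, M i j = shp σ (M 0) i j := fun i j => congrFun (congrFun h i) j
    have e10 := e 1 0
    have e11 := e 1 1
    have e12 := e 1 2
    have e20 := e 2 0
    have e21 := e 2 1
    have e22 := e 2 2
    simp [shp] at e10 e11 e12 e20 e21 e22
    refine ⟨⟨e10, e11, e12⟩, ⟨?_, ?_, ?_⟩, ⟨?_, ?_, ?_⟩⟩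
    · rw [e20, e12]
    · rw [e21, e10]; simp
    · rw [e22, e11]
    · rw [e22, C1_map3 σ hσ]
    · rw [e20, Polynomial.map_mul, Polynomial.map_X, C1_map3 σ hσ]
    · rw [e21, Polynomial.map_mul, Polynomial.map_X, C1_map3 σ hσ]

theorem Shape_shp (σ : K →+* K) (hσ : ∀ x, σ (σ (σ x)) = x) (a : Fin 3 → K[X]) :
    Shape σ (shp σ a) := by
  rw [Shape_iff σ hσ]
  have h : shp σ a 0 = a := by
    funext j
    fin_cases j <;> simp [shp]
  rw [h]

end Girth967
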