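import Mathlib
import Pool.Agent.H967G.Defs

set_option autoImplicit false
set_option linter.all false

/-! C2 : base of the count -/

open Polynomial Matrix

namespace Girth967

variable {K : Type*} [Field K]

theorem C2_sss [Fintype K] (q : ℕ) (hK : Fintype.card K = q ^ 3)
    (σ : K →+* K) (hσ : ∀ x, σ x = x ^ q) (x : K) : σ (σ (σ x)) = x := by
  rw [hσ (σ (σ x)), hσ (σ x), hσ x, ← pow_mul, ← pow_mul]
  have e : q * (q * q) = q ^ 3 := by ring
  rw [e, ← hK]
  exact FiniteField.pow_card x

/-- the twisted column scaling -/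
noncomputable def C2_sc (σ : K →+* K) (x : K) (a : Fin 3 → K[X]) : Fin 3 → K[X] :=
  ![a 0 * C x, a 1 * C (σ x), a 2 * C (σ (σ x))]

theorem C2_det (σ : K →+* K) (hs : ∀ x, σ (σ (σ x)) = x) (x : K) (a : Fin 3 → K[X]) :
    (shp σ (C2_sc σ x a)).det = (shp σ a).det * C (x * σ x * σ (σ x)) := by
  simp only [shp, C2_sc, Matrix.det_fin_three, Matrix.of_apply, Matrix.cons_val', Matrix.cons_val_zero,
    Matrix.cons_val_one, Matrix.cons_val, Polynomial.map_mul, Polynomial.map_C, hs, C_mul,
    Matrix.cons_val_fin_one]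
  ring

theorem C2_deg (σ : K →+* K) (x : K) (a : Fin 3 → K[X]) (d : WithBot ℕ)
    (h : ∀ i, (a i).degree < d) : ∀ i, (C2_sc σ x a i).degree < d := by
  have key : ∀ (p : K[X]) (y : K), p.degree < d → (p * C y).degree < d := by
    intro p y hp
    refine lt_of_le_of_lt ?_ hp
    refine (degree_mul_le p (C y)).trans ?_
    calc p.degree + (C y).degree ≤ p.degree + 0 := by gcongr; exact degree_C_le
      _ = p.degree := add_zero _
  intro i
  fin_cases i
  · exact key _ _ (h 0)
  · exact key _ _ (h 1)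
  · exact key _ _ (h 2)

theorem C2_inj (σ : K →+* K) (x : K) (hx : x ≠ 0) (a b : Fin 3 → K[X])
    (h : C2_sc σ x a = C2_sc σ x b) : a = b := by
  have h1 : σ x ≠ 0 := by simpa using hx
  have h2 : σ (σ x) ≠ 0 := by simpa using hx
  have g0 := congrFun h 0
  have g1 := congrFun h 1
  have g2 := congrFun h 2
  simp only [C2_sc, Matrix.cons_val_zero, Matrix.cons_val_one, Matrix.cons_val] at g0 g1 g2
  have f0 := mul_right_cancel₀ (C_ne_zero.2 hx) g0
  have f1 := mul_right_cancel₀ (C_ne_zero.2 h1) g1
  have f2 := mul_right_cancel₀ (C_ne_zero.2 h2) g2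
  funext i
  fin_cases i
  · exact f0
  · exact f1
  · exact f2

/-- triples of polynomials of small degree -/
theorem C2_P [Fintype K] (q : ℕ) (hK : Fintype.card K = q ^ 3) (Q : K[X]) (hQ : Q.Monic) :
    ({a : Fin 3 → K[X] | ∀ i, (a i).degree < Q.degree}).Finite ∧
      ({a : Fin 3 → K[X] | ∀ i, (a i).degree < Q.degree}).ncard ≤ q ^ (9 * Q.natDegree) := by
  classical
  set e := Q.natDegree with he
  let f : (Fin 3 → Fin e → K) → (Fin 3 → K[X]) :=
    fun c i => (((degreeLTEquiv K e).symm (c i) : degreeLT K e) : K[X])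
  have hsub : {a : Fin 3 → K[X] | ∀ i, (a i).degree < Q.degree} ⊆ Set.range f := by
    intro a ha
    have ha' : ∀ i, a i ∈ degreeLT K e := by
      intro i
      rw [mem_degreeLT]
      have := ha i
      rwa [degree_eq_natDegree hQ.ne_zero] at this
    refine ⟨fun i => degreeLTEquiv K e ⟨a i, ha' i⟩, ?_⟩
    funext i
    simp [f]
  have hfin : (Set.range f).Finite := Set.finite_range f
  refine ⟨hfin.subset hsub, ?_⟩
  refine (Set.ncard_le_ncard hsub hfin).trans ?_
  rw [← Set.image_univ]
  refine (Set.ncard_image_le Set.finite_univ).trans ?_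
  rw [Set.ncard_univ, Nat.card_eq_fintype_card]
  simp only [Fintype.card_pi, Finset.prod_const, Finset.card_univ, Fintype.card_fin, hK]
  rw [← pow_mul, ← pow_mul]
  apply le_of_eq
  congr 1
  ring

theorem C2_norm [Fintype K] [DecidableEq K] (q : ℕ) (hq : 1 ≤ q) (hK : Fintype.card K = q ^ 3)
    (σ : K →+* K) (hσ : ∀ x, σ x = x ^ q) :
    q - 1 ≤ (((Finset.univ : Finset K).erase 0).image (fun x => x * σ x * σ (σ x))).card := by
  have hN : ∀ x : K, x * σ x * σ (σ x) = x ^ (1 + q + q * q) := by
    intro x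
    rw [hσ (σ x), hσ x, ← pow_mul, pow_add, pow_add, pow_one]
  have hfib : ∀ t ∈ ((Finset.univ : Finset K).erase 0).image (fun x => x * σ x * σ (σ x)),
      (((Finset.univ : Finset K).erase 0).filter (fun x => x * σ x * σ (σ x) = t)).card ≤ 1 + q + q * q := by
    intro t _
    have hne : (X ^ (1 + q + q * q) - C t : K[X]) ≠ 0 := by
      apply X_pow_sub_C_ne_zero; omega
    calc (((Finset.univ : Finset K).erase 0).filter (fun x => x * σ x * σ (σ x) = t)).card
        ≤ (X ^ (1 + q + q * q) - C t : K[X]).roots.toFinset.card := by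
          apply Finset.card_le_card
          intro x hx
          rw [Finset.mem_filter, hN] at hx
          rw [Multiset.mem_toFinset, mem_roots hne]
          simp [hx.2]
      _ ≤ Multiset.card (X ^ (1 + q + q * q) - C t : K[X]).roots := Multiset.toFinset_card_le _
      _ ≤ (X ^ (1 + q + q * q) - C t : K[X]).natDegree := card_roots' _
      _ = 1 + q + q * q := natDegree_X_pow_sub_C
  have h := Finset.card_le_mul_card_image (s := ((Finset.univ : Finset K).erase 0))
    (f := fun x => x * σ x * σ (σ x)) (1 + q + q * q) hfib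
  rw [Finset.card_erase_of_mem (Finset.mem_univ _), Finset.card_univ, hK] at h
  have e : q ^ 3 - 1 = (1 + q + q * q) * (q - 1) := by
    obtain ⟨r, rfl⟩ : ∃ r, q = r + 1 := ⟨q - 1, by omega⟩
    simp only [Nat.add_sub_cancel]
    have : (r + 1) ^ 3 = (1 + (r + 1) + (r + 1) * (r + 1)) * r + 1 := by ring
    rw [this]; simp
  rw [e] at h
  exact Nat.le_of_mul_le_mul_left h (by omega)

/-- C2 : base of the count -/
theorem card_Rep_one [Fintype K] (q : ℕ) (hq : IsPrimePow q) (hK : Fintype.card K = q ^ 3)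
    (σ : K →+* K) (hσ : ∀ x, σ x = x ^ q) (Q : K[X]) (hQ : Q.Monic) (hQσ : Q.map σ = Q) (hd : 0 < Q.natDegree) :
    (Rep σ Q 1).Finite ∧ (q - 1) * (Rep σ Q 1).ncard ≤ q ^ (9 * Q.natDegree) := by
  classical
  have hs := C2_sss q hK σ hσ
  obtain ⟨hPf, hPc⟩ := C2_P q hK Q hQ
  set P : Set (Fin 3 → K[X]) := {a | ∀ i, (a i).degree < Q.degree} with hP
  have hsub : Rep σ Q 1 ⊆ P := by
    intro a ha i
    have := ha.1 i
    rwa [pow_one] at this
  have hRf : (Rep σ Q 1).Finite := hPf.subset hsub
  refine ⟨hRf, ?_⟩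
  set I : Finset K := ((Finset.univ : Finset K).erase 0).image (fun x => x * σ x * σ (σ x)) with hI
  have hIc : q - 1 ≤ I.card := C2_norm q hq.one_lt.le hK σ hσ
  have hch : ∀ t : K, ∃ x : K, t ∈ I → (x ≠ 0 ∧ x * σ x * σ (σ x) = t) := by
    intro t
    by_cases ht : t ∈ I
    · rw [hI, Finset.mem_image] at ht
      obtain ⟨x, hx, hxt⟩ := ht
      exact ⟨x, fun _ => ⟨(Finset.mem_erase.1 hx).1, hxt⟩⟩
    · exact ⟨0, fun h => absurd h ht⟩
  choose r hr using hch
  refine le_trans ?_ hPc
  calc (q - 1) * (Rep σ Q 1).ncard ≤ I.card * (Rep σ Q 1).ncard := Nat.mul_le_mul_right _ hIc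
    _ = ((Rep σ Q 1) ×ˢ (I : Set K)).ncard := by
        rw [Set.ncard_prod, Set.ncard_coe_finset, mul_comm]
    _ ≤ P.ncard := by
        apply Set.ncard_le_ncard_of_injOn (fun p => C2_sc σ (r p.2) p.1) _ _ hPf
        · rintro ⟨a, t⟩ ⟨ha, ht⟩
          exact C2_deg σ (r t) a _ (hsub ha)
        · rintro ⟨a, t⟩ ⟨ha, ht⟩ ⟨b, s⟩ ⟨hb, hs'⟩ hab
          simp only at hab ha ht hb hs'
          have ht' : t ∈ I := ht
          have hs'' : s ∈ I := hs'
          have hta := ha.2
          have htb := hb.2
          rw [pow_one] at hta htb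
          have d1 := C2_det σ hs (r t) a
          have d2 := C2_det σ hs (r s) b
          rw [(hr t ht').2] at d1
          rw [(hr s hs'').2] at d2
          rw [← hab] at d2
          have hdvd : Q ∣ C (t - s) := by
            have e : (C (t - s) : K[X]) =
                ((shp σ b).det - 1) * C s - ((shp σ a).det - 1) * C t := by
              have e1 := d1.symm.trans d2
              rw [C_sub]
              linear_combination e1
            rw [e]
            exact dvd_sub (Dvd.dvd.mul_right htb _) (Dvd.dvd.mul_right hta _)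
          have hts : t = s := by
            by_contra hne
            have hne' : t - s ≠ 0 := sub_ne_zero.2 hne
            have h1 := natDegree_le_of_dvd hdvd (C_ne_zero.2 hne')
            rw [natDegree_C] at h1
            omega
          subst hts
          have := C2_inj σ (r t) (hr t ht').1 a b hab
          rw [this]

end Girth967
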