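import Mathlib
import Pool.Agent.H967G.Defs
import Pool.Agent.H967G.S.C1
import Pool.Agent.H967G.S.C2

set_option autoImplicit false
set_option linter.all false

/-! C3 : step of the count (helper332) -/

open Polynomial Matrix

namespace Girth967

variable {K : Type*} [Field K]

theorem C3_det {R : Type*} [CommRing R] (A Y : Matrix (Fin 3) (Fin 3) R) (c : R) :
    (A + c • Y).det = A.det + c * (A.adjugate * Y).trace
      + c ^ 2 * ((A * Y.adjugate).trace + c * Y.det) := by
  rw [Matrix.trace_fin_three, Matrix.trace_fin_three]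
  simp only [Matrix.mul_apply, Fin.sum_univ_three]
  simp only [Matrix.det_fin_three, Matrix.adjugate_fin_three, Matrix.add_apply, Matrix.smul_apply,
    smul_eq_mul, Matrix.of_apply, Matrix.cons_val', Matrix.cons_val_zero,
    Matrix.cons_val_one, Matrix.cons_val, Matrix.cons_val_fin_one]
  ring

theorem C3_shp_add (σ : K →+* K) (c : K[X]) (hc : c.map σ = c) (a y : Fin 3 → K[X]) :
    shp σ (fun i => a i + c * y i) = shp σ a + c • shp σ y := by
  ext i j : 1
  fin_cases i <;> fin_cases j <;> simp [shp, hc] <;> ring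

theorem C3_shp_sub (σ : K →+* K) (a y : Fin 3 → K[X]) :
    shp σ (fun i => a i - y i) = shp σ a - shp σ y := by
  ext i j : 1
  fin_cases i <;> fin_cases j <;> simp [shp] <;> ring

theorem C3_map_dvd (σ : K →+* K) (Q p : K[X]) (hQσ : Q.map σ = Q) (h : Q ∣ p) : Q ∣ p.map σ := by
  obtain ⟨r, rfl⟩ := h
  rw [Polynomial.map_mul, hQσ]
  exact dvd_mul_right _ _

theorem C3_shp_dvd (σ : K →+* K) (Q : K[X]) (hQσ : Q.map σ = Q) (a : Fin 3 → K[X])
    (h : ∀ i, Q ∣ a i) (i j : Fin 3) : Q ∣ shp σ a i j := by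
  have h0 := h 0
  have h1 := h 1
  have h2 := h 2
  have k0 := C3_map_dvd σ Q _ hQσ h0
  have k1 := C3_map_dvd σ Q _ hQσ h1
  have k2 := C3_map_dvd σ Q _ hQσ h2
  have l0 := C3_map_dvd σ Q _ hQσ k0
  have l1 := C3_map_dvd σ Q _ hQσ k1
  have l2 := C3_map_dvd σ Q _ hQσ k2
  fin_cases i <;> fin_cases j <;> simp [shp, h0, h1, h2, k0, k1, k2, l0, l1, l2, Dvd.dvd.mul_left]

/-- the possible remainders -/
def C3_S (σ : K →+* K) (Q : K[X]) : Set (Fin 3 → K[X]) :=
  {r | (∀ i, (r i).degree < Q.degree) ∧ r 0 + (r 0).map σ + ((r 0).map σ).map σ = 0}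

theorem C3_S_card [Fintype K] [DecidableEq K] (q : ℕ) (hK : Fintype.card K = q ^ 3)
    (σ : K →+* K)
    (htr : (Finset.univ.filter fun x : K => x + σ x + σ (σ x) = 0).card = q ^ 2)
    (Q : K[X]) (hQ : Q.Monic) :
    (C3_S σ Q).Finite ∧ (C3_S σ Q).ncard ≤ q ^ (8 * Q.natDegree) := by
  classical
  set e := Q.natDegree with he
  let T := {x : K // x + σ x + σ (σ x) = 0}
  have hT : Fintype.card T = q ^ 2 := by
    rw [← htr, Fintype.card_subtype]
  let P : (Fin e → K) → K[X] := fun c => (((degreeLTEquiv K e).symm c : degreeLT K e) : K[X])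
  let f : (Fin e → T) × (Fin e → K) × (Fin e → K) → (Fin 3 → K[X]) :=
    fun c => ![P (fun j => (c.1 j).1), P c.2.1, P c.2.2]
  have hsub : C3_S σ Q ⊆ Set.range f := by
    rintro r ⟨hr, hr0⟩
    have hr' : ∀ i, r i ∈ degreeLT K e := by
      intro i
      rw [mem_degreeLT]
      have := hr i
      rwa [degree_eq_natDegree hQ.ne_zero] at this
    have hco : ∀ j, (r 0).coeff j + σ ((r 0).coeff j) + σ (σ ((r 0).coeff j)) = 0 := by
      intro j
      have := congrArg (fun p => Polynomial.coeff p j) hr0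
      simpa using this
    have hP : ∀ i, P (fun j => (r i).coeff j) = r i := by
      intro i
      have : (fun j : Fin e => (r i).coeff j) = degreeLTEquiv K e ⟨r i, hr' i⟩ := by
        funext j
        rfl
      simp only [P]
      rw [this]
      simp
    refine ⟨(fun j => ⟨(r 0).coeff j, hco j⟩, fun j => (r 1).coeff j, fun j => (r 2).coeff j), ?_⟩
    funext i
    fin_cases i
    · exact hP 0
    · exact hP 1
    · exact hP 2
  have hfin : (Set.range f).Finite := Set.finite_range f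
  refine ⟨hfin.subset hsub, ?_⟩
  refine (Set.ncard_le_ncard hsub hfin).trans ?_
  rw [← Set.image_univ]
  refine (Set.ncard_image_le Set.finite_univ).trans ?_
  rw [Set.ncard_univ, Nat.card_eq_fintype_card]
  simp only [Fintype.card_prod, Fintype.card_pi, Finset.prod_const, Finset.card_univ,
    Fintype.card_fin, hK, hT]
  rw [← pow_mul, ← pow_mul, ← pow_add, ← pow_add]
  apply le_of_eq
  congr 1
  ring

/-- reduction modulo `Q^n` maps `Rep (n+1)` to `Rep n` -/
theorem C3_red (σ : K →+* K) (Q : K[X]) (hQ : Q.Monic) (hQσ : Q.map σ = Q)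
    (n : ℕ) (a : Fin 3 → K[X]) (ha : a ∈ Rep σ Q (n + 1)) :
    (fun i => a i %ₘ Q ^ n) ∈ Rep σ Q n := by
  have hQn : (Q ^ n).Monic := hQ.pow n
  have hQnσ : (Q ^ n).map σ = Q ^ n := by rw [Polynomial.map_pow, hQσ]
  refine ⟨fun i => degree_modByMonic_lt _ hQn, ?_⟩
  set b : Fin 3 → K[X] := fun i => a i %ₘ Q ^ n with hb
  set y : Fin 3 → K[X] := fun i => a i /ₘ Q ^ n with hy
  have hab : a = fun i => b i + Q ^ n * y i := by
    funext i
    exact (modByMonic_add_div (a i) (Q ^ n)).symm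
  have h1 : Q ^ n ∣ (shp σ a).det - 1 := (pow_dvd_pow Q (Nat.le_succ n)).trans ha.2
  rw [hab, C3_shp_add σ _ hQnσ, C3_det] at h1
  have h2 : Q ^ n ∣ Q ^ n * ((shp σ b).adjugate * shp σ y).trace
      + (Q ^ n) ^ 2 * ((shp σ b * (shp σ y).adjugate).trace + Q ^ n * (shp σ y).det) := by
    refine dvd_add (dvd_mul_right _ _) (Dvd.dvd.mul_right (dvd_pow_self _ (by norm_num)) _)
  have h3 := dvd_sub h1 h2
  have h4 : (shp σ b).det - 1 = (shp σ b).det + Q ^ n * ((shp σ b).adjugate * shp σ y).trace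
      + (Q ^ n) ^ 2 * ((shp σ b * (shp σ y).adjugate).trace + Q ^ n * (shp σ y).det) - 1
      - (Q ^ n * ((shp σ b).adjugate * shp σ y).trace
      + (Q ^ n) ^ 2 * ((shp σ b * (shp σ y).adjugate).trace + Q ^ n * (shp σ y).det)) := by ring
  rw [h4]
  exact h3

/-- the fibres -/
theorem C3_fibre [Fintype K] [DecidableEq K] (q : ℕ) (hK : Fintype.card K = q ^ 3)
    (σ : K →+* K) (hs : ∀ x, σ (σ (σ x)) = x)
    (htr : (Finset.univ.filter fun x : K => x + σ x + σ (σ x) = 0).card = q ^ 2)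
    (Q : K[X]) (hQ : Q.Monic) (hQσ : Q.map σ = Q) (n : ℕ) (hn : 1 ≤ n) (b : Fin 3 → K[X]) :
    {a ∈ Rep σ Q (n + 1) | (fun i => a i %ₘ Q ^ n) = b}.ncard ≤ q ^ (8 * Q.natDegree) := by
  classical
  obtain ⟨hSf, hSc⟩ := C3_S_card q hK σ htr Q hQ
  have hQn : (Q ^ n).Monic := hQ.pow n
  have hQnσ : (Q ^ n).map σ = Q ^ n := by rw [Polynomial.map_pow, hQσ]
  rcases Set.eq_empty_or_nonempty {a ∈ Rep σ Q (n + 1) | (fun i => a i %ₘ Q ^ n) = b} with h0 | ⟨a₀, ha₀⟩
  · rw [h0]; simp
  refine le_trans ?_ hSc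
  set A := shp σ a₀ with hA
  have hAs : Shape σ A := Shape_shp σ hs a₀
  let y : (Fin 3 → K[X]) → (Fin 3 → K[X]) := fun a i => a i /ₘ Q ^ n - a₀ i /ₘ Q ^ n
  let W : (Fin 3 → K[X]) → Matrix (Fin 3) (Fin 3) K[X] := fun a => A.adjugate * shp σ (y a)
  have hWs : ∀ a, Shape σ (W a) := fun a => Shape_mul σ (Shape_adjugate σ hAs) (Shape_shp σ hs _)
  have hWe : ∀ a, W a = shp σ (W a 0) := fun a => (Shape_iff σ hs _).1 (hWs a)
  have hAdet : Q ∣ A.det - 1 := by
    have := ha₀.1.2
    exact (dvd_pow_self Q (by omega)).trans this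
  -- decomposition
  have hdec : ∀ a ∈ {a ∈ Rep σ Q (n + 1) | (fun i => a i %ₘ Q ^ n) = b},
      a = fun i => a₀ i + Q ^ n * y a i := by
    intro a ha
    funext i
    have e1 := modByMonic_add_div (a i) (Q ^ n)
    have e2 := modByMonic_add_div (a₀ i) (Q ^ n)
    have e3 : a i %ₘ Q ^ n = a₀ i %ₘ Q ^ n := by
      have := congrFun (ha.2.trans ha₀.2.symm) i
      simpa using this
    simp only [y]
    linear_combination -e1 + e2 + e3
  have hydeg : ∀ a ∈ {a ∈ Rep σ Q (n + 1) | (fun i => a i %ₘ Q ^ n) = b}, ∀ i,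
      (y a i).degree < Q.degree := by
    have key : ∀ p : K[X], p.degree < (Q ^ (n + 1)).degree → (p /ₘ Q ^ n).degree < Q.degree := by
      intro p hp
      have hQ0 : Q.degree = (Q.natDegree : WithBot ℕ) := degree_eq_natDegree hQ.ne_zero
      by_cases h : p /ₘ Q ^ n = 0
      · rw [h, degree_zero, hQ0]
        exact WithBot.bot_lt_coe _
      · rw [degree_eq_natDegree h, hQ0, natDegree_divByMonic _ hQn]
        have hp0 : p ≠ 0 := by
          rintro rfl
          exact h (zero_divByMonic _)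
        rw [degree_eq_natDegree hp0, degree_eq_natDegree (hQ.pow (n + 1)).ne_zero,
          hQ.natDegree_pow] at hp
        have hp' : p.natDegree < (n + 1) * Q.natDegree := by exact_mod_cast hp
        rw [hQ.natDegree_pow]
        have hge : n * Q.natDegree ≤ p.natDegree := by
          by_contra hlt
          apply h
          apply (divByMonic_eq_zero_iff hQn).2
          rw [degree_eq_natDegree hp0, degree_eq_natDegree hQn.ne_zero, hQ.natDegree_pow]
          exact_mod_cast (not_le.1 hlt)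
        have : p.natDegree - n * Q.natDegree < Q.natDegree := by
          rw [Nat.add_mul, one_mul] at hp'
          omega
        exact_mod_cast this
    intro a ha i
    exact lt_of_le_of_lt (degree_sub_le _ _) (max_lt (key _ (ha.1.1 i)) (key _ (ha₀.1.1 i)))
  apply Set.ncard_le_ncard_of_injOn (fun a i => (W a 0 i) %ₘ Q) _ _ hSf
  · -- maps to
    intro a ha
    refine ⟨fun i => degree_modByMonic_lt _ hQ, ?_⟩
    have e1 : Q ^ (n + 1) ∣ (shp σ a).det - 1 := ha.1.2
    have e2 : Q ^ (n + 1) ∣ A.det - 1 := ha₀.1.2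
    have e3 : (shp σ a).det = A.det + Q ^ n * (W a).trace
      + (Q ^ n) ^ 2 * ((A * (shp σ (y a)).adjugate).trace + Q ^ n * (shp σ (y a)).det) := by
      conv_lhs => rw [hdec a ha]
      rw [C3_shp_add σ _ hQnσ, C3_det]
    have e4 : Q ^ (n + 1) ∣ Q ^ n * (W a).trace := by
      have e5 : Q ^ n * (W a).trace = ((shp σ a).det - 1) - (A.det - 1)
        - (Q ^ n) ^ 2 * ((A * (shp σ (y a)).adjugate).trace + Q ^ n * (shp σ (y a)).det) := by
        rw [e3]; ring
      rw [e5]
      refine dvd_sub (dvd_sub e1 e2) (Dvd.dvd.mul_right ?_ _)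
      rw [← pow_mul]
      exact pow_dvd_pow Q (by omega)
    have e6 : Q ∣ (W a).trace := by
      rw [pow_succ] at e4
      exact (mul_dvd_mul_iff_left (pow_ne_zero n hQ.ne_zero)).1 e4
    have e7 : (W a).trace = W a 0 0 + (W a 0 0).map σ + ((W a 0 0).map σ).map σ := by
      conv_lhs => rw [hWe a]
      rw [Matrix.trace_fin_three]
      simp [shp]
    rw [e7] at e6
    have e8 : ∀ p : K[X], (p %ₘ Q).map σ = (p.map σ) %ₘ Q := by
      intro p
      rw [map_modByMonic σ hQ, hQσ]
    show (W a 0 0) %ₘ Q + ((W a 0 0) %ₘ Q).map σ + (((W a 0 0) %ₘ Q).map σ).map σ = 0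
    rw [e8, e8, ← add_modByMonic, ← add_modByMonic]
    exact (modByMonic_eq_zero_iff_dvd hQ).2 e6
  · -- injective
    intro a ha a' ha' h
    simp only at h
    have h1 : ∀ i, Q ∣ W a 0 i - W a' 0 i := by
      intro i
      have := congrFun h i
      rw [← modByMonic_eq_zero_iff_dvd hQ, sub_modByMonic, this, sub_self]
    have h2 : ∀ i j, Q ∣ (W a - W a') i j := by
      intro i j
      have e : W a - W a' = shp σ (fun i => W a 0 i - W a' 0 i) := by
        rw [C3_shp_sub, ← hWe a, ← hWe a']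
      rw [e]
      exact C3_shp_dvd σ Q hQσ _ h1 i j
    have h3 : A * (W a - W a') = A.det • (shp σ (y a) - shp σ (y a')) := by
      simp only [W]
      rw [← Matrix.mul_sub, ← Matrix.mul_assoc, Matrix.mul_adjugate, Matrix.smul_mul, Matrix.one_mul]
    have h4 : ∀ i, Q ∣ A.det * (y a i - y a' i) := by
      intro i
      have e : (A * (W a - W a')) 0 i = A.det * (y a i - y a' i) := by
        rw [h3]
        fin_cases i <;> simp [shp]
      rw [← e, Matrix.mul_apply]
      exact Finset.dvd_sum fun k _ => Dvd.dvd.mul_left (h2 k i) _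
    have h5 : ∀ i, y a i = y a' i := by
      intro i
      have e : Q ∣ y a i - y a' i := by
        have e1 : y a i - y a' i = A.det * (y a i - y a' i) - (A.det - 1) * (y a i - y a' i) := by
          ring
        rw [e1]
        exact dvd_sub (h4 i) (Dvd.dvd.mul_right hAdet _)
      have hlt : (y a i - y a' i).degree < Q.degree :=
        lt_of_le_of_lt (degree_sub_le _ _) (max_lt (hydeg a ha i) (hydeg a' ha' i))
      have := eq_zero_of_dvd_of_degree_lt e hlt
      exact sub_eq_zero.1 this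
    rw [hdec a ha, hdec a' ha']
    funext i
    rw [h5 i]

/-- C3 : step of the count -/
theorem card_Rep_succ [Fintype K] [DecidableEq K] (q : ℕ) (hq : IsPrimePow q) (hK : Fintype.card K = q ^ 3)
    (σ : K →+* K) (hσ : ∀ x, σ x = x ^ q)
    (htr : (Finset.univ.filter fun x : K => x + σ x + σ (σ x) = 0).card = q ^ 2)
    (Q : K[X]) (hQ : Q.Monic) (hQσ : Q.map σ = Q) (hd : 0 < Q.natDegree) (n : ℕ) (hn : 1 ≤ n) :
    (Rep σ Q n).Finite → (Rep σ Q (n + 1)).Finite ∧
      (Rep σ Q (n + 1)).ncard ≤ q ^ (8 * Q.natDegree) * (Rep σ Q n).ncard := by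
  classical
  intro hfin
  have hs := C2_sss q hK σ hσ
  obtain ⟨hPf, -⟩ := C2_P q hK (Q ^ (n + 1)) (hQ.pow _)
  have hRf : (Rep σ Q (n + 1)).Finite := hPf.subset (fun a ha => ha.1)
  refine ⟨hRf, ?_⟩
  let f : (Fin 3 → K[X]) → (Fin 3 → K[X]) := fun a i => a i %ₘ Q ^ n
  have hmaps : ∀ a ∈ hRf.toFinset, f a ∈ hfin.toFinset := by
    intro a ha
    rw [Set.Finite.mem_toFinset] at ha ⊢
    exact C3_red σ Q hQ hQσ n a ha
  have hfib : ∀ b ∈ hfin.toFinset, (hRf.toFinset.filter (fun a => f a = b)).card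
      ≤ q ^ (8 * Q.natDegree) := by
    intro b _
    refine le_trans (le_of_eq ?_) (C3_fibre q hK σ hs htr Q hQ hQσ n hn b)
    rw [← Set.ncard_coe_finset]
    congr 1
    ext a
    simp [f]
  have := Finset.card_le_mul_card_image_of_maps_to hmaps (q ^ (8 * Q.natDegree)) hfib
  rw [Set.ncard_eq_toFinset_card _ hRf, Set.ncard_eq_toFinset_card _ hfin]
  exact this

end Girth967
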