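import Mathlib
import Pool.Agent.H967G.Defs

/-! Task C6: the elements `c_u` of the group. -/

open Polynomial Matrix
namespace Girth967
variable {K : Type*} [Field K]

theorem C6_Gm_det (σ : K →+* K) (u : K) (hu : u ≠ 0) :
    (Gm σ u).det = 1 - X := by
  have h1 : σ u ≠ 0 := fun h => hu ((map_eq_zero σ).mp h)
  have h2 : σ (σ u) ≠ 0 := fun h => h1 ((map_eq_zero σ).mp h)
  have e1 : (C (σ u / σ (σ u)) * C (σ (σ u) / u) * C (u / σ u) : K[X]) = 1 := by
    rw [← C_mul, ← C_mul]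
    have : σ u / σ (σ u) * (σ (σ u) / u) * (u / σ u) = 1 := by field_simp
    rw [this, C_1]
  have e2 : (C (u / σ (σ u)) * C (σ u / u) * C (σ (σ u) / σ u) : K[X]) = 1 := by
    rw [← C_mul, ← C_mul]
    have : u / σ (σ u) * (σ u / u) * (σ (σ u) / σ u) = 1 := by field_simp
    rw [this, C_1]
  rw [Matrix.det_fin_three]
  simp only [Gm, Matrix.of_apply, Matrix.cons_val', Matrix.cons_val_zero, Matrix.cons_val_one,
    Matrix.cons_val, Matrix.cons_val_fin_one]
  linear_combination e1 - X * e2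

theorem C6_Shape_Gm (σ : K →+* K) (hσ : ∀ x, σ (σ (σ x)) = x) (u : K) : Shape σ (Gm σ u) := by
  unfold Shape
  ext i j : 2
  fin_cases i <;> fin_cases j <;>
    simp [Zm, Gm, Matrix.mul_apply, Fin.sum_univ_three, hσ]

/-- C6 : the elements `c_u` -/
theorem exists_gen (σ : K →+* K) (hσ : ∀ x, σ (σ (σ x)) = x) (Q v : K[X]) (n : ℕ)
    (hv : v.map σ = v) (hv1 : Q ^ n ∣ (1 - X) * v - 1) (u₀ : K) (hu₀ : Iso σ u₀) :
    ∃ c : {u : K // Iso σ u} → HG σ Q n, ∀ u w : {u : K // Iso σ u},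
      (((c u)⁻¹ * c w : HG σ Q n) : Matrix (Fin 3) (Fin 3) (RQ Q n)) =
        (v • Em σ u.1 w.1).map (mkQ Q n) := by
  have hone : mkQ Q n ((1 - X) * v) = 1 := by
    have h1 : (mkQ Q n) ((1 - X) * v - 1) = 0 :=
      Ideal.Quotient.eq_zero_iff_mem.mpr (Ideal.mem_span_singleton.mpr hv1)
    rw [map_sub, map_one] at h1
    exact sub_eq_zero.mp h1
  have hdetE : ∀ u w : K, Iso σ u → Iso σ w →
      (v • Em σ u w).det = ((1 - X) * v) ^ 3 := by
    intro u w hu hw
    rw [Matrix.det_smul, Em, Matrix.det_mul, Matrix.det_adjugate, C6_Gm_det σ u hu.1,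
      C6_Gm_det σ w hw.1]
    simp only [Fintype.card_fin]
    ring
  have hdet : ∀ u w : K, Iso σ u → Iso σ w → ((v • Em σ u w).map (mkQ Q n)).det = 1 := by
    intro u w hu hw
    have h1 := RingHom.map_det (mkQ Q n) (v • Em σ u w)
    rw [RingHom.mapMatrix_apply] at h1
    rw [← h1, hdetE u w hu hw, map_pow, hone, one_pow]
  have hshape : ∀ u w : K, Shape σ (v • Em σ u w) := fun u w =>
    Shape_smul σ v hv (Shape_mul σ (Shape_adjugate σ (C6_Shape_Gm σ hσ u)) (C6_Shape_Gm σ hσ w))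
  have hmul : ∀ u w : K, Iso σ u →
      (v • Em σ u₀ u).map (mkQ Q n) * (v • Em σ u w).map (mkQ Q n) =
        (v • Em σ u₀ w).map (mkQ Q n) := by
    intro u w hu
    rw [← Matrix.map_mul]
    have e1 : (v • Em σ u₀ u) * (v • Em σ u w) = ((1 - X) * v) • (v • Em σ u₀ w) := by
      unfold Em
      have e2 : (Gm σ u₀).adjugate * Gm σ u * ((Gm σ u).adjugate * Gm σ w) =
          (1 - X : K[X]) • ((Gm σ u₀).adjugate * Gm σ w) := by
        calc (Gm σ u₀).adjugate * Gm σ u * ((Gm σ u).adjugate * Gm σ w)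
            = (Gm σ u₀).adjugate * (Gm σ u * (Gm σ u).adjugate) * Gm σ w := by
              simp only [Matrix.mul_assoc]
          _ = _ := by
              rw [Matrix.mul_adjugate, C6_Gm_det σ u hu.1, Matrix.mul_smul, Matrix.mul_one,
                Matrix.smul_mul]
      rw [Matrix.smul_mul, Matrix.mul_smul, e2, smul_smul, smul_smul, smul_smul]
      congr 1
      ring
    rw [e1]
    ext i j
    simp only [Matrix.map_apply, Matrix.smul_apply, smul_eq_mul, map_mul]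
    have := hone
    rw [map_mul] at this
    rw [this, one_mul]
  let c : {u : K // Iso σ u} → HG σ Q n := fun u =>
    ⟨⟨(v • Em σ u₀ u.1).map (mkQ Q n), hdet u₀ u.1 hu₀ u.2⟩,
      ⟨v • Em σ u₀ u.1, hshape u₀ u.1, rfl⟩⟩
  refine ⟨c, fun u w => ?_⟩
  have h1 : (((c u)⁻¹ * c w : HG σ Q n) : Matrix (Fin 3) (Fin 3) (RQ Q n)) =
      ((v • Em σ u₀ u.1).map (mkQ Q n)).adjugate * (v • Em σ u₀ w.1).map (mkQ Q n) := rfl
  rw [h1, ← hmul u.1 w.1 u.2, ← Matrix.mul_assoc, Matrix.adjugate_mul, hdet u₀ u.1 hu₀ u.2,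
    one_smul, Matrix.one_mul]

end Girth967
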