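import Mathlib
import Pool.Agent.H967G.Defs

/-! Task D1 (helper152): the Haar graph is regular. -/

namespace Girth967

theorem D1_adj_inl {G ι : Type*} [Group G] (c : ι → G) (g : G) (y : G ⊕ G) :
    (haar c).Adj (Sum.inl g) y ↔ ∃ i, y = Sum.inr (g * c i) := by
  unfold haar
  rw [SimpleGraph.fromRel_adj]
  constructor
  · rintro ⟨-, ⟨g', i, h1, h2⟩ | ⟨g', i, h1, h2⟩⟩
    · exact ⟨i, by rw [h2, Sum.inl.inj h1]⟩
    · exact absurd h2 (by simp)
  · rintro ⟨i, rfl⟩
    exact ⟨by simp, Or.inl ⟨g, i, rfl, rfl⟩⟩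

theorem D1_adj_inr {G ι : Type*} [Group G] (c : ι → G) (h : G) (y : G ⊕ G) :
    (haar c).Adj (Sum.inr h) y ↔ ∃ i, y = Sum.inl (h * (c i)⁻¹) := by
  unfold haar
  rw [SimpleGraph.fromRel_adj]
  constructor
  · rintro ⟨-, ⟨g', i, h1, h2⟩ | ⟨g', i, h1, h2⟩⟩
    · exact absurd h1 (by simp)
    · exact ⟨i, by rw [h1, Sum.inr.inj h2, mul_inv_cancel_right]⟩
  · rintro ⟨i, rfl⟩
    exact ⟨by simp, Or.inr ⟨h * (c i)⁻¹, i, rfl, by rw [inv_mul_cancel_right]⟩⟩

/-- D1 -/
theorem haar_regular {G ι : Type*} [Group G] [Fintype G] [Fintype ι] (c : ι → G) (hc : Function.Injective c)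
    [DecidableRel (haar c).Adj] : (haar c).IsRegularOfDegree (Fintype.card ι) := by
  classical
  intro x
  rw [← SimpleGraph.card_neighborFinset_eq_degree]
  rcases x with g | h
  · have e : (haar c).neighborFinset (Sum.inl g) =
        Finset.univ.image (fun i => (Sum.inr (g * c i) : G ⊕ G)) := by
      ext y
      rw [SimpleGraph.mem_neighborFinset, D1_adj_inl, Finset.mem_image]
      simp [eq_comm]
    rw [e, Finset.card_image_of_injective, Finset.card_univ]
    intro i j hij
    exact hc (mul_left_cancel (Sum.inr.inj hij))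
  · have e : (haar c).neighborFinset (Sum.inr h) =
        Finset.univ.image (fun i => (Sum.inl (h * (c i)⁻¹) : G ⊕ G)) := by
      ext y
      rw [SimpleGraph.mem_neighborFinset, D1_adj_inr, Finset.mem_image]
      simp [eq_comm]
    rw [e, Finset.card_image_of_injective, Finset.card_univ]
    intro i j hij
    exact hc (inv_injective (mul_left_cancel (Sum.inl.inj hij)))

end Girth967
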