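import Mathlib
import Pool.Agent.H967G.Defs

/-! Task D2: the girth of the Haar graph of a family of elements of a group. -/

namespace Girth967

theorem D2_adj_inl {G ι : Type*} [Group G] (c : ι → G) (g : G) (y : G ⊕ G) :
    (haar c).Adj (Sum.inl g) y ↔ ∃ i, y = Sum.inr (g * c i) := by
  unfold haar
  rw [SimpleGraph.fromRel_adj]
  constructor
  · rintro ⟨-, ⟨g', i, h1, h2⟩ | ⟨g', i, h1, h2⟩⟩
    · rw [Sum.inl.injEq] at h1
      subst h1
      exact ⟨i, h2⟩
    · exact absurd h2 (by simp)
  · rintro ⟨i, rfl⟩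
    exact ⟨by simp, Or.inl ⟨g, i, rfl, rfl⟩⟩

theorem D2_adj_inr {G ι : Type*} [Group G] (c : ι → G) (h : G) (y : G ⊕ G) :
    (haar c).Adj (Sum.inr h) y ↔ ∃ g i, y = Sum.inl g ∧ h = g * c i := by
  unfold haar
  rw [SimpleGraph.fromRel_adj]
  constructor
  · rintro ⟨-, ⟨g', i, h1, h2⟩ | ⟨g', i, h1, h2⟩⟩
    · exact absurd h1 (by simp)
    · rw [Sum.inr.injEq] at h2
      exact ⟨g', i, h1, h2⟩
  · rintro ⟨g, i, rfl, rfl⟩
    exact ⟨by simp, Or.inr ⟨g, i, rfl, rfl⟩⟩

/-- the algebraic part -/
theorem D2_core {G ι : Type*} [Group G] (c : ι → G) (M : ℕ)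
    (H : ∀ m > 0, ∀ a b : ℕ → ι, (∀ i < m, a i ≠ b i) → (∀ i, i + 1 < m → b i ≠ a (i + 1)) →
      ((List.range m).map (fun i => (c (a i))⁻¹ * c (b i))).prod = 1 → M ≤ m)
    (m : ℕ) (hm : 0 < m) (g h : ℕ → G) (α β : ℕ → ι)
    (hβ : ∀ k < m, h k = g k * c (β k)) (hα : ∀ k < m, h k = g (k + 1) * c (α k))
    (hg : g m = g 0) (h1 : ∀ k, k + 1 < m → h k ≠ h (k + 1)) (h2 : h (m - 1) ≠ h 0)
    (h3 : ∀ k, k + 1 < m → g k ≠ g (k + 1)) : M ≤ m := by
  set a : ℕ → ι := fun i => if i = 0 then α (m - 1) else α (i - 1) with ha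
  set p : ℕ → ℕ := fun i => if i = 0 then m - 1 else i - 1 with hp
  have hca : ∀ i < m, c (a i) = (g i)⁻¹ * h (p i) := by
    intro i hi
    rcases Nat.eq_zero_or_pos i with h0 | h0
    · subst h0
      have e := hα (m - 1) (by omega)
      rw [show m - 1 + 1 = m by omega, hg] at e
      simp only [ha, hp, if_true]
      rw [e]; group
    · have e := hα (i - 1) (by omega)
      rw [show i - 1 + 1 = i by omega] at e
      simp only [ha, hp, if_neg (by omega : i ≠ 0)]
      rw [e]; group
  have hcb : ∀ i < m, c (β i) = (g i)⁻¹ * h i := by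
    intro i hi
    rw [hβ i hi]; group
  have hne : ∀ i < m, h (p i) ≠ h i := by
    intro i hi
    rcases Nat.eq_zero_or_pos i with h0 | h0
    · subst h0
      simpa only [hp, if_true] using h2
    · have e := h1 (i - 1) (by omega)
      rw [show i - 1 + 1 = i by omega] at e
      simpa only [hp, if_neg (by omega : i ≠ 0)] using e
  refine H m hm a β ?_ ?_ ?_
  · intro i hi hab
    apply hne i hi
    have e1 := hca i hi
    rw [hab, hcb i hi] at e1
    exact (mul_left_cancel e1).symm
  · intro i hi hab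
    apply h3 i hi
    have e1 := hβ i (by omega)
    have e2 := hα i (by omega)
    have e3 : a (i + 1) = α i := by
      simp only [ha, if_neg (by omega : i + 1 ≠ 0), Nat.add_sub_cancel]
    rw [hab, e3] at e1
    rw [e1] at e2
    exact mul_right_cancel e2
  · have key : ∀ k ≤ m, ((List.range k).map (fun i => (c (a i))⁻¹ * c (β i))).prod =
        if k = 0 then 1 else (h (m - 1))⁻¹ * h (k - 1) := by
      intro k
      induction k with
      | zero => intro _; simp
      | succ k ih =>
          intro hk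
          rw [List.range_succ, List.map_append, List.prod_append, ih (by omega)]
          simp only [List.map_cons, List.map_nil, List.prod_cons, List.prod_nil, mul_one]
          rw [hca k (by omega), hcb k (by omega)]
          rcases Nat.eq_zero_or_pos k with h0 | h0
          · subst h0
            simp only [hp, if_true, one_mul, Nat.zero_add, if_neg (one_ne_zero), Nat.sub_self]
            group
          · rw [if_neg (by omega : k ≠ 0), if_neg (by omega : k + 1 ≠ 0), Nat.add_sub_cancel]
            simp only [hp, if_neg (by omega : k ≠ 0)]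
            group
    rw [key m le_rfl, if_neg (by omega)]
    group

/-- the part on sequences of vertices -/
theorem D2_seq {G ι : Type*} [Group G] (c : ι → G) (M : ℕ)
    (H : ∀ m > 0, ∀ a b : ℕ → ι, (∀ i < m, a i ≠ b i) → (∀ i, i + 1 < m → b i ≠ a (i + 1)) →
      ((List.range m).map (fun i => (c (a i))⁻¹ * c (b i))).prod = 1 → M ≤ m)
    (L : ℕ) (hL : 3 ≤ L) (x : ℕ → G ⊕ G) (g₀ : G) (hx0 : x 0 = Sum.inl g₀) (hxL : x L = x 0)
    (hadj : ∀ j < L, (haar c).Adj (x j) (x (j + 1))) (hne : ∀ j, j + 2 ≤ L → x j ≠ x (j + 2))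
    (hne1 : x 1 ≠ x (L - 1)) : 2 * M ≤ L := by
  classical
  have hpar : ∀ j ≤ L, (Even j → ∃ g, x j = Sum.inl g) ∧ (Odd j → ∃ h, x j = Sum.inr h) := by
    intro j
    induction j with
    | zero => intro _; exact ⟨fun _ => ⟨g₀, hx0⟩, fun h => by simp at h⟩
    | succ j ih =>
        intro hj
        have h1 := ih (by omega)
        have h2 := hadj j (by omega)
        constructor
        · intro he
          have ho : Odd j := by
            rcases Nat.even_or_odd j with h | h
            · exact absurd he (by simpa [Nat.even_add_one] using h)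
            · exact h
          obtain ⟨h, hh⟩ := h1.2 ho
          rw [hh, D2_adj_inr] at h2
          obtain ⟨g, i, h3, -⟩ := h2
          exact ⟨g, h3⟩
        · intro ho
          have he : Even j := by
            rcases Nat.even_or_odd j with h | h
            · exact h
            · exact absurd ho (by
                rw [Nat.not_odd_iff_even, Nat.even_add_one, Nat.not_even_iff_odd]; exact h)
          obtain ⟨g, hh⟩ := h1.1 he
          rw [hh, D2_adj_inl] at h2
          obtain ⟨i, h3⟩ := h2
          exact ⟨_, h3⟩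
  have hLe : Even L := by
    rcases Nat.even_or_odd L with h | h
    · exact h
    · obtain ⟨y, hy⟩ := (hpar L le_rfl).2 h
      rw [hxL, hx0] at hy
      exact absurd hy (by simp)
  obtain ⟨m, hm⟩ := hLe
  have hm0 : 0 < m := by omega
  have hg : ∀ k, ∃ g : G, k ≤ m → x (2 * k) = Sum.inl g := by
    intro k
    by_cases hk : k ≤ m
    · obtain ⟨g, h⟩ := (hpar (2 * k) (by omega)).1 (even_two_mul k)
      exact ⟨g, fun _ => h⟩
    · exact ⟨1, fun h => absurd h hk⟩
  have hh : ∀ k, ∃ g : G, k < m → x (2 * k + 1) = Sum.inr g := by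
    intro k
    by_cases hk : k < m
    · obtain ⟨g, h⟩ := (hpar (2 * k + 1) (by omega)).2 (odd_two_mul_add_one k)
      exact ⟨g, fun _ => h⟩
    · exact ⟨1, fun h => absurd h hk⟩
  choose g hg using hg
  choose h hh using hh
  have hb : ∀ k < m, ∃ i, h k = g k * c i := by
    intro k hk
    have h1 := hadj (2 * k) (by omega)
    rw [hg k hk.le, hh k hk, D2_adj_inl] at h1
    obtain ⟨i, h2⟩ := h1
    exact ⟨i, Sum.inr.inj h2⟩
  have ha : ∀ k < m, ∃ i, h k = g (k + 1) * c i := by
    intro k hk
    have h1 := hadj (2 * k + 1) (by omega)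
    rw [hh k hk, show 2 * k + 1 + 1 = 2 * (k + 1) by ring, hg (k + 1) (by omega),
      D2_adj_inr] at h1
    obtain ⟨g', i, h2, h3⟩ := h1
    rw [Sum.inl.injEq] at h2
    exact ⟨i, by rw [h2, h3]⟩
  obtain ⟨i₀, -⟩ := hb 0 hm0
  have hb' : ∀ k, ∃ i, k < m → h k = g k * c i := by
    intro k
    by_cases hk : k < m
    · obtain ⟨i, h⟩ := hb k hk
      exact ⟨i, fun _ => h⟩
    · exact ⟨i₀, fun h => absurd h hk⟩
  have ha' : ∀ k, ∃ i, k < m → h k = g (k + 1) * c i := by
    intro k
    by_cases hk : k < m
    · obtain ⟨i, h⟩ := ha k hk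
      exact ⟨i, fun _ => h⟩
    · exact ⟨i₀, fun h => absurd h hk⟩
  choose β hβ using hb'
  choose α hα using ha'
  have hfin : M ≤ m := by
    refine D2_core c M H m hm0 g h α β hβ hα ?_ ?_ ?_ ?_
    · have e1 := hg m le_rfl
      have e2 := hg 0 (Nat.zero_le _)
      rw [show 2 * m = L by omega, hxL] at e1
      rw [Nat.mul_zero, e1] at e2
      exact Sum.inl.inj e2
    · intro k hk he
      apply hne (2 * k + 1) (by omega)
      rw [hh k (by omega), show 2 * k + 1 + 2 = 2 * (k + 1) + 1 by ring, hh (k + 1) hk, he]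
    · intro he
      apply hne1
      have e1 := hh 0 hm0
      have e2 := hh (m - 1) (by omega)
      rw [show 2 * (m - 1) + 1 = L - 1 by omega] at e2
      rw [Nat.mul_zero, Nat.zero_add] at e1
      rw [e1, e2, he]
    · intro k hk he
      apply hne (2 * k) (by omega)
      rw [hg k (by omega), show 2 * k + 2 = 2 * (k + 1) by ring, hg (k + 1) (by omega), he]
  omega

/-- D2 -/
theorem haar_egirth {G ι : Type*} [Group G] (c : ι → G) (hc : Function.Injective c) (M : ℕ)
    (h : ∀ m > 0, ∀ a b : ℕ → ι, (∀ i < m, a i ≠ b i) → (∀ i, i + 1 < m → b i ≠ a (i + 1)) →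
      ((List.range m).map (fun i => (c (a i))⁻¹ * c (b i))).prod = 1 → M ≤ m) :
    ((2 * M : ℕ) : ℕ∞) ≤ (haar c).egirth := by
  classical
  rw [SimpleGraph.le_egirth]
  -- cycles starting on the left
  have main : ∀ (g : G) (w : (haar c).Walk (Sum.inl g) (Sum.inl g)), w.IsCycle →
      2 * M ≤ w.length := by
    intro g w hw
    have h3 := hw.three_le_length
    have hinj := hw.getVert_injOn
    refine D2_seq c M h w.length h3 w.getVert g w.getVert_zero ?_ ?_ ?_ ?_
    · rw [w.getVert_length, w.getVert_zero]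
    · intro j hj
      exact w.adj_getVert_succ hj
    · intro j hj he
      rcases Nat.eq_zero_or_pos j with h0 | h0
      · subst h0
        have e1 : w.getVert w.length = w.getVert 2 := by
          rw [w.getVert_length, ← he, w.getVert_zero]
        have := hinj (x₁ := w.length) (x₂ := 2) ⟨by omega, le_rfl⟩ ⟨by omega, by omega⟩ e1
        omega
      · have := hinj (x₁ := j) (x₂ := j + 2) ⟨by omega, by omega⟩ ⟨by omega, by omega⟩ he
        omega
    · intro he
      have := hinj (x₁ := 1) (x₂ := w.length - 1) ⟨le_rfl, by omega⟩ ⟨by omega, by omega⟩ he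
      omega
  intro v w hw
  rcases v with g | g
  · exact_mod_cast main g w hw
  · have h3 := hw.three_le_length
    have hadj := w.adj_getVert_succ (i := 0) (by omega)
    rw [w.getVert_zero, D2_adj_inr] at hadj
    obtain ⟨g', i, h1, -⟩ := hadj
    have hmem : Sum.inl g' ∈ w.support := by
      rw [← h1]
      exact w.getVert_mem_support _
    have hr := hw.rotate hmem
    have := main g' _ hr
    rw [SimpleGraph.Walk.length_rotate] at this
    exact_mod_cast this

end Girth967
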