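import Mathlib
import Pool.Agent.H967G.Defs

/-! C5 : the group has at most `|Rep|` elements -/

open Polynomial Matrix

namespace Girth967

variable {K : Type*} [Field K]

theorem C5_map3 (σ : K →+* K) (hσ : ∀ x, σ (σ (σ x)) = x) (p : K[X]) :
    ((p.map σ).map σ).map σ = p := by
  ext m
  rw [coeff_map, coeff_map, coeff_map, hσ]

theorem C5_shape_shp (σ : K →+* K) (hσ : ∀ x, σ (σ (σ x)) = x) (a : Fin 3 → K[X]) :
    Shape σ (shp σ a) := by
  have h0 := C5_map3 σ hσ (a 0)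
  have h1 := C5_map3 σ hσ (a 1)
  have h2 := C5_map3 σ hσ (a 2)
  unfold Shape
  ext i j : 2
  fin_cases i <;> fin_cases j <;>
    simp [Zm, shp, Matrix.mul_apply, Fin.sum_univ_three, h0, h1, h2] <;> ring_nf

theorem C5_shape_eq (σ : K →+* K) {M : Matrix (Fin 3) (Fin 3) K[X]} (h : Shape σ M) :
    M = shp σ (M 0) := by
  unfold Shape at h
  have e : ∀ i j, (Zm K * M) i j = ((M.map (Polynomial.map σ)) * Zm K) i j := fun i j => by rw [h]
  have e00 := e 0 0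
  have e01 := e 0 1
  have e02 := e 0 2
  have e10 := e 1 0
  have e11 := e 1 1
  have e12 := e 1 2
  simp [Zm, Matrix.mul_apply, Fin.sum_univ_three] at e00 e01 e02 e10 e11 e12
  ext i j : 2
  fin_cases i <;> fin_cases j <;> simp [shp, e00, e01, e02, e10, e11, e12] <;> ring_nf

theorem C5_dvd_map (σ : K →+* K) (Q : K[X]) (hQσ : Q.map σ = Q) (n : ℕ) {p r : K[X]}
    (h : Q ^ n ∣ p - r) : Q ^ n ∣ p.map σ - r.map σ := by
  obtain ⟨c, hc⟩ := h
  refine ⟨c.map σ, ?_⟩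
  rw [← Polynomial.map_sub, hc, Polynomial.map_mul, Polynomial.map_pow, hQσ]

theorem C5_mkQ_eq (Q : K[X]) (n : ℕ) {p r : K[X]} : mkQ Q n p = mkQ Q n r ↔ Q ^ n ∣ p - r := by
  unfold mkQ
  rw [Ideal.Quotient.eq, Ideal.mem_span_singleton]

theorem C5_congr (σ : K →+* K) (Q : K[X]) (hQσ : Q.map σ = Q) (n : ℕ) {a b : Fin 3 → K[X]}
    (h : ∀ i, Q ^ n ∣ a i - b i) : (shp σ a).map (mkQ Q n) = (shp σ b).map (mkQ Q n) := by
  have h0 : ∀ i, mkQ Q n (a i) = mkQ Q n (b i) := fun i => (C5_mkQ_eq Q n).2 (h i)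
  have h1 : ∀ i, mkQ Q n ((a i).map σ) = mkQ Q n ((b i).map σ) :=
    fun i => (C5_mkQ_eq Q n).2 (C5_dvd_map σ Q hQσ n (h i))
  have h2 : ∀ i, mkQ Q n (((a i).map σ).map σ) = mkQ Q n (((b i).map σ).map σ) :=
    fun i => (C5_mkQ_eq Q n).2 (C5_dvd_map σ Q hQσ n (C5_dvd_map σ Q hQσ n (h i)))
  ext i j : 2
  rw [Matrix.map_apply, Matrix.map_apply]
  unfold shp
  fin_cases i <;> fin_cases j
  · exact h0 0
  · exact h0 1
  · exact h0 2
  · show mkQ Q n (X * (a 2).map σ) = mkQ Q n (X * (b 2).map σ)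
    rw [map_mul, map_mul, h1]
  · exact h1 0
  · exact h1 1
  · show mkQ Q n (X * ((a 1).map σ).map σ) = mkQ Q n (X * ((b 1).map σ).map σ)
    rw [map_mul, map_mul, h2]
  · show mkQ Q n (X * ((a 2).map σ).map σ) = mkQ Q n (X * ((b 2).map σ).map σ)
    rw [map_mul, map_mul, h2]
  · exact h2 0

theorem C5_det (σ : K →+* K) (Q : K[X]) (n : ℕ) (a : Fin 3 → K[X]) :
    ((shp σ a).map (mkQ Q n)).det = 1 ↔ Q ^ n ∣ (shp σ a).det - 1 := by
  rw [← C5_mkQ_eq Q n, map_one, RingHom.map_det, RingHom.mapMatrix_apply]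

/-- C5 -/
theorem card_HG_le [Fintype K] (σ : K →+* K) (hσ : ∀ x, σ (σ (σ x)) = x) (Q : K[X]) (hQ : Q.Monic)
    (hQσ : Q.map σ = Q) (hd : 0 < Q.natDegree) (n : ℕ) (hn : 1 ≤ n) (hfin : (Rep σ Q n).Finite) :
    Finite (HG σ Q n) ∧ Nat.card (HG σ Q n) ≤ (Rep σ Q n).ncard := by
  have hf0 : Finite (Rep σ Q n) := hfin
  let f : Rep σ Q n → HG σ Q n := fun a =>
    ⟨⟨(shp σ a.1).map (mkQ Q n), (C5_det σ Q n a.1).2 a.2.2⟩,
      ⟨shp σ a.1, C5_shape_shp σ hσ a.1, rfl⟩⟩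
  have hsurj : Function.Surjective f := by
    rintro ⟨M, A, hA, hM⟩
    have hAs := C5_shape_eq σ hA
    have hmonic : (Q ^ n).Monic := hQ.pow n
    have hb : ∀ i, Q ^ n ∣ (fun i => (A 0 i) %ₘ (Q ^ n)) i - (A 0) i := by
      intro i
      have h1 := modByMonic_add_div (A 0 i) (Q ^ n)
      refine ⟨-((A 0 i) /ₘ (Q ^ n)), ?_⟩
      show (A 0 i) %ₘ (Q ^ n) - A 0 i = _
      linear_combination h1
    have hcong := C5_congr σ Q hQσ n hb
    rw [← hAs] at hcong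
    have hdet : Q ^ n ∣ (shp σ (fun i => (A 0 i) %ₘ (Q ^ n))).det - 1 := by
      rw [← C5_det, hcong, ← hM]
      exact M.2
    refine ⟨⟨fun i => (A 0 i) %ₘ (Q ^ n), fun i => degree_modByMonic_lt _ hmonic, hdet⟩, ?_⟩
    apply Subtype.ext
    apply Subtype.ext
    show (shp σ (fun i => (A 0 i) %ₘ (Q ^ n))).map (mkQ Q n) = M.1
    rw [hcong]
    exact hM.symm
  refine ⟨Finite.of_surjective f hsurj, ?_⟩
  have h1 := Nat.card_le_card_of_surjective f hsurj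
  rwa [Nat.card_coe_set_eq] at h1

end Girth967
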