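import Mathlib
import Pool.Agent.H967G.Defs

/-! E1a: disjoint copies of a regular graph and isolated vertices. -/

namespace Girth967

open Finset

/-- `n / v` disjoint copies of a graph on `v` vertices, and isolated vertices -/
def E1a_graph (n v : ℕ) (hv : 0 < v) {V : Type} (e : V ≃ Fin v) (G : SimpleGraph V) :
    SimpleGraph (Fin n) where
  Adj i j := (i : ℕ) / v = (j : ℕ) / v ∧ (i : ℕ) < n / v * v ∧ (j : ℕ) < n / v * v ∧
    G.Adj (e.symm ⟨(i : ℕ) % v, Nat.mod_lt _ hv⟩) (e.symm ⟨(j : ℕ) % v, Nat.mod_lt _ hv⟩)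
  symm := ⟨fun _ _ h => ⟨h.1.symm, h.2.2.1, h.2.1, h.2.2.2.symm⟩⟩
  loopless := ⟨fun _ h => G.loopless.irrefl _ h.2.2.2⟩

theorem E1a_block {n v : ℕ} {hv : 0 < v} {V : Type} {e : V ≃ Fin v} {G : SimpleGraph V}
    {a b : Fin n} (w : (E1a_graph n v hv e G).Walk a b) :
    ∀ x ∈ w.support, (x : ℕ) / v = (a : ℕ) / v := by
  induction w with
  | nil =>
    intro x hx
    rw [SimpleGraph.Walk.support_nil, List.mem_singleton] at hx
    rw [hx]
  | cons h w ih =>
    intro x hx
    rw [SimpleGraph.Walk.support_cons, List.mem_cons] at hx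
    rcases hx with rfl | hx
    · rfl
    · rw [ih x hx]
      exact h.1.symm

theorem E1a_girth {n v k : ℕ} {hv : 0 < v} {V : Type} {e : V ≃ Fin v} {G : SimpleGraph V}
    (hg : ((2 * k : ℕ) : ℕ∞) < G.egirth) : ((2 * k : ℕ) : ℕ∞) < (E1a_graph n v hv e G).egirth := by
  have h1 : ((2 * k + 1 : ℕ) : ℕ∞) ≤ G.egirth := by
    have := Order.add_one_le_of_lt hg
    exact_mod_cast this
  have h2 : ((2 * k + 1 : ℕ) : ℕ∞) ≤ (E1a_graph n v hv e G).egirth := by
    rw [SimpleGraph.le_egirth] at h1 ⊢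
    intro a w hw
    have hs : ∀ x ∈ w.support, x ∈ {i : Fin n | (i : ℕ) / v = (a : ℕ) / v} := E1a_block w
    set s : Set (Fin n) := {i : Fin n | (i : ℕ) / v = (a : ℕ) / v} with hsdef
    have hw' : (w.induce s hs).IsCycle := by
      rw [← SimpleGraph.Walk.isCycle_map_iff_of_injective
        (f := (SimpleGraph.Embedding.induce (G := E1a_graph n v hv e G) s).toHom)
        (SimpleGraph.Embedding.induce (G := E1a_graph n v hv e G) s).injective]
      rw [SimpleGraph.Walk.map_induce]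
      exact hw
    let f : (E1a_graph n v hv e G).induce s →g G :=
      ⟨fun i => e.symm ⟨(i : Fin n) % v, Nat.mod_lt _ hv⟩, fun {i j} h => h.2.2.2⟩
    have hf : Function.Injective f := by
      intro i j hij
      have h3 : (⟨((i : Fin n) : ℕ) % v, Nat.mod_lt _ hv⟩ : Fin v)
          = ⟨((j : Fin n) : ℕ) % v, Nat.mod_lt _ hv⟩ := e.symm.injective hij
      have h4 : ((i : Fin n) : ℕ) % v = ((j : Fin n) : ℕ) % v := congrArg Fin.val h3
      have h5 : ((i : Fin n) : ℕ) / v = (a : ℕ) / v := i.2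
      have h6 : ((j : Fin n) : ℕ) / v = (a : ℕ) / v := j.2
      apply Subtype.ext
      apply Fin.ext
      rw [← Nat.div_add_mod ((i : Fin n) : ℕ) v, ← Nat.div_add_mod ((j : Fin n) : ℕ) v, h4, h5, h6]
    have h7 := h1 _ _ ((SimpleGraph.Walk.isCycle_map_iff_of_injective hf).2 hw')
    rw [SimpleGraph.Walk.length_map] at h7
    have h8 : (w.induce s hs).length = w.length := by
      have := congrArg SimpleGraph.Walk.length (SimpleGraph.Walk.map_induce w hs)
      rwa [SimpleGraph.Walk.length_map] at this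
    rwa [h8] at h7
  exact lt_of_lt_of_le (by exact_mod_cast Nat.lt_succ_self _) h2

theorem copies (n k d : ℕ) (V : Type) [Fintype V] [DecidableEq V] (G : SimpleGraph V)
    [DecidableRel G.Adj] (hV : Nonempty V) (hreg : G.IsRegularOfDegree d)
    (hg : ((2 * k : ℕ) : ℕ∞) < G.egirth) (hn : Fintype.card V ≤ n) :
    ∃ G' : SimpleGraph (Fin n), ((2 * k : ℕ) : ℕ∞) < G'.egirth ∧ n * d ≤ 4 * G'.edgeSet.ncard := by
  classical
  set v := Fintype.card V with hvdef
  have hv : 0 < v := Fintype.card_pos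
  let e : V ≃ Fin v := Fintype.equivFin V
  refine ⟨E1a_graph n v hv e G, E1a_girth hg, ?_⟩
  set G' := E1a_graph n v hv e G with hG'
  have hcard : G'.edgeSet.ncard = #G'.edgeFinset := by
    rw [← SimpleGraph.coe_edgeFinset, Set.ncard_coe_finset]
  have hdeg : ∀ i : Fin n, (i : ℕ) < n / v * v → d ≤ G'.degree i := by
    intro i hi
    have hb : (i : ℕ) / v < n / v := Nat.div_lt_of_lt_mul (by rwa [mul_comm] at hi)
    have hlt : ∀ x : V, (e x : ℕ) + (i : ℕ) / v * v < n / v * v := by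
      intro x
      have h1 := (e x).2
      have h2 : ((i : ℕ) / v + 1) * v ≤ n / v * v := Nat.mul_le_mul_right _ hb
      have h3 : ((i : ℕ) / v + 1) * v = (i : ℕ) / v * v + v := by ring
      omega
    have hle : n / v * v ≤ n := Nat.div_mul_le_self _ _
    rw [← hreg (e.symm ⟨(i : ℕ) % v, Nat.mod_lt _ hv⟩), ← SimpleGraph.card_neighborFinset_eq_degree,
      ← SimpleGraph.card_neighborFinset_eq_degree]
    apply card_le_card_of_injOn
      (fun x => (⟨(e x : ℕ) + (i : ℕ) / v * v, lt_of_lt_of_le (hlt x) hle⟩ : Fin n))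
    · intro x hx
      rw [mem_coe, SimpleGraph.mem_neighborFinset] at hx ⊢
      have h1 : ((e x : ℕ) + (i : ℕ) / v * v) / v = (i : ℕ) / v := by
        rw [Nat.add_mul_div_right _ _ hv, Nat.div_eq_of_lt (e x).2, zero_add]
      have h2 : ((e x : ℕ) + (i : ℕ) / v * v) % v = (e x : ℕ) := by
        rw [Nat.add_mul_mod_self_right, Nat.mod_eq_of_lt (e x).2]
      refine ⟨h1.symm, hi, hlt x, ?_⟩
      have h3 : (⟨((e x : ℕ) + (i : ℕ) / v * v) % v, Nat.mod_lt _ hv⟩ : Fin v) = e x := Fin.ext h2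
      change G.Adj _ (e.symm (⟨((e x : ℕ) + (i : ℕ) / v * v) % v, Nat.mod_lt _ hv⟩ : Fin v))
      rw [h3, Equiv.symm_apply_apply]
      exact hx
    · intro x _ y _ hxy
      have h1 : (e x : ℕ) + (i : ℕ) / v * v = (e y : ℕ) + (i : ℕ) / v * v := congrArg Fin.val hxy
      apply e.injective
      apply Fin.ext
      omega
  have hsum := G'.sum_degrees_eq_twice_card_edges
  have hlow : n / v * v * d ≤ ∑ i : Fin n, G'.degree i := by
    have hle : n / v * v ≤ n := Nat.div_mul_le_self _ _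
    have h1 : ∑ i ∈ (univ : Finset (Fin n)).filter (fun i : Fin n => (i : ℕ) < n / v * v), d
        ≤ ∑ i ∈ (univ : Finset (Fin n)).filter (fun i : Fin n => (i : ℕ) < n / v * v), G'.degree i :=
      sum_le_sum fun i hi => hdeg i (mem_filter.1 hi).2
    have h2 : #((univ : Finset (Fin n)).filter (fun i : Fin n => (i : ℕ) < n / v * v))
        = n / v * v := by
      rw [Fin.card_filter_val_lt, min_eq_right hle]
    rw [sum_const, h2, smul_eq_mul] at h1
    exact h1.trans (sum_le_sum_of_subset (filter_subset _ _))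
  rw [hsum] at hlow
  rw [hcard]
  have h3 : n ≤ 2 * (n / v * v) := by
    have h4 : 1 ≤ n / v := (Nat.one_le_div_iff hv).2 hn
    have h5 : n < (n / v + 1) * v := by
      rw [mul_comm]
      exact Nat.lt_mul_div_succ n hv
    have h6 : (n / v + 1) * v = n / v * v + v := by ring
    have h7 : v ≤ n / v * v := Nat.le_mul_of_pos_left _ h4
    omega
  calc n * d ≤ 2 * (n / v * v) * d := Nat.mul_le_mul_right _ h3
    _ = 2 * (n / v * v * d) := by ring
    _ ≤ 2 * (2 * #G'.edgeFinset) := Nat.mul_le_mul_left _ hlow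
    _ = 4 * #G'.edgeFinset := by ring

end Girth967
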