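import Mathlib

/-!
Task E1b: choice of the prime in the padding argument.
-/

namespace Girth967

/-- E1b : choice of the prime.  -/
theorem padding_analytic (A C : ℕ) (hA : 1 ≤ A) (f : ℕ → ℕ)
    (h : ∀ p : ℕ, p.Prime → ∀ n : ℕ, C * p ^ A ≤ n → n * (p + 1) ≤ 4 * f n) :
    ∃ c : ℝ, 0 < c ∧ ∃ N : ℕ, ∀ n : ℕ, N ≤ n →
      c * (n : ℝ) ^ ((1 : ℝ) + 1 / (A : ℝ)) ≤ (f n : ℝ) := by
  set C' : ℕ := C + 1 with hC'
  have hC0 : (0 : ℝ) < (C' : ℝ) := by positivity
  refine ⟨(1 / 8) * ((C' : ℝ)⁻¹) ^ ((1 : ℝ) / (A : ℝ)), by positivity, C' * 2 ^ A + 1,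
    fun n hn => ?_⟩
  set x : ℕ := Nat.findGreatest (fun x => C' * x ^ A ≤ n) n with hx
  have hself : ∀ y : ℕ, y ≤ C' * y ^ A := by
    intro y
    calc y = 1 * y ^ 1 := by ring
      _ ≤ C' * y ^ A := by
        apply Nat.mul_le_mul (by omega)
        rcases Nat.eq_zero_or_pos y with h0 | h0
        · subst h0
          simp
        · exact Nat.pow_le_pow_right h0 hA
  have h2 : C' * 2 ^ A ≤ n := by omega
  have h2n : 2 ≤ n := (hself 2).trans h2
  have hx2 : 2 ≤ x := Nat.le_findGreatest h2n h2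
  have hx1 : C' * x ^ A ≤ n := by
    have := Nat.findGreatest_spec (P := fun x => C' * x ^ A ≤ n) h2n h2
    exact this
  have hx3 : n < C' * (x + 1) ^ A := by
    by_contra hcon
    push Not at hcon
    have h3 : x + 1 ≤ n := (hself (x + 1)).trans hcon
    have h4 : x + 1 ≤ x := Nat.le_findGreatest h3 hcon
    omega
  obtain ⟨p, hp, hmp, hpm⟩ := Nat.exists_prime_lt_and_le_two_mul (x / 2) (by omega)
  have hpx : p ≤ x := by omega
  have hpn : C * p ^ A ≤ n := by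
    refine le_trans ?_ hx1
    apply Nat.mul_le_mul (by omega)
    exact Nat.pow_le_pow_left hpx A
  have h5 := h p hp n hpn
  have h6 : n * (x + 1) ≤ 8 * f n := by
    have h7 : x + 1 ≤ 2 * (p + 1) := by omega
    calc n * (x + 1) ≤ n * (2 * (p + 1)) := Nat.mul_le_mul_left _ h7
      _ = 2 * (n * (p + 1)) := by ring
      _ ≤ 2 * (4 * f n) := Nat.mul_le_mul_left _ h5
      _ = 8 * f n := by ring
  have h6' : (n : ℝ) * (x + 1) ≤ 8 * f n := by exact_mod_cast h6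
  have hn0 : (0 : ℝ) < (n : ℝ) := by
    have : 0 < n := by omega
    exact_mod_cast this
  have h8 : ((C' : ℝ)⁻¹ * n) ^ ((1 : ℝ) / (A : ℝ)) ≤ (x : ℝ) + 1 := by
    have h9 : (C' : ℝ)⁻¹ * n ≤ ((x : ℝ) + 1) ^ A := by
      rw [inv_mul_le_iff₀ hC0]
      exact_mod_cast hx3.le
    have h10 := Real.rpow_le_rpow (by positivity) h9 (show (0 : ℝ) ≤ 1 / (A : ℝ) by positivity)
    rw [one_div, Real.pow_rpow_inv_natCast (by positivity) (by omega)] at h10
    rw [one_div]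
    exact h10
  have h11 : (n : ℝ) ^ ((1 : ℝ) + 1 / (A : ℝ)) = n * (n : ℝ) ^ ((1 : ℝ) / (A : ℝ)) := by
    rw [Real.rpow_add hn0, Real.rpow_one]
  rw [Real.mul_rpow (by positivity) (by positivity)] at h8
  rw [h11]
  have h12 := mul_le_mul_of_nonneg_left h8 hn0.le
  nlinarith

end Girth967
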