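import Mathlib

namespace Girth967

/-- E2 -/
theorem extremal_of_girth (n k : ℕ) (hk : 2 ≤ k) (G : SimpleGraph (Fin n))
    (hG : ((2 * k : ℕ) : ℕ∞) < G.egirth) :
    G.edgeSet.ncard ≤ SimpleGraph.extremalNumber n (SimpleGraph.cycleGraph (2 * k)) := by
  classical
  have hfree : (SimpleGraph.cycleGraph (2 * k)).Free G := by
    intro hcon
    obtain ⟨v, p, hp, hl⟩ := (SimpleGraph.cycleGraph_isContained_iff (by omega)).1 hcon
    have h1 := SimpleGraph.egirth_le_length hp
    rw [hl] at h1
    exact absurd hG (not_lt_of_ge h1)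
  have h := SimpleGraph.card_edgeFinset_le_extremalNumber hfree
  rw [Fintype.card_fin] at h
  rw [Set.ncard_eq_toFinset_card']
  exact h

end Girth967
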